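import Pool.Agent.R225.BO.Defs

set_option autoImplicit false

open MeasureTheory Filter Topology
open scoped ENNReal RealInnerProductSpace

namespace Pool.Agent.R225.BO

instance unif_prob (d : ℕ) : IsProbabilityMeasure (unif d) := by
  have h0 : (volume : Measure (E d)).toSphere Set.univ ≠ 0 := by
    have h1 : (volume : Measure (E d)).toSphere ≠ 0 := Measure.toSphere_ne_zero _
    exact fun h => h1 (Measure.measure_univ_eq_zero.1 h)
  have h1 : (volume : Measure (E d)).toSphere Set.univ ≠ ∞ := measure_ne_top _ _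
  refine ⟨?_⟩
  rw [unif, Measure.smul_apply, smul_eq_mul, ENNReal.inv_mul_cancel h0 h1]

instance law_prob (d n : ℕ) : IsProbabilityMeasure (law d n) := by
  unfold law; infer_instance

theorem slab_closed {d : ℕ} (v : E d) (t : ℝ) : IsClosed (slab v t) := by
  unfold slab
  refine isClosed_le ?_ continuous_const
  exact (continuous_const.inner continuous_subtype_val).abs

theorem slab_mono {d : ℕ} (v : E d) {s t : ℝ} (h : s ≤ t) : slab v s ⊆ slab v t :=
  fun _ hx => le_trans hx h

theorem geoR_local {d n : ℕ} (α : ℝ) (R : Set (Sph d)) (X Y : Fin n → Sph d)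
    (h : ∀ j, X j = Y j ∨ (X j ∉ R ∧ Y j ∉ R)) : geoR α R X = geoR α R Y := by
  ext i j
  show _ ∧ _ ↔ _ ∧ _
  constructor
  · rintro ⟨h1, h2, h3⟩
    have hi : X i = Y i := by
      rcases h i with h4 | h4
      · exact h4
      · exact absurd h2 h4.1
    have hj : X j = Y j := by
      rcases h j with h4 | h4
      · exact h4
      · exact absurd h3 h4.1
    rw [← hi, ← hj]
    exact ⟨h1, h2, h3⟩
  · rintro ⟨h1, h2, h3⟩
    have hi : X i = Y i := by
      rcases h i with h4 | h4
      · exact h4
      · exact absurd h2 h4.2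
    have hj : X j = Y j := by
      rcases h j with h4 | h4
      · exact h4
      · exact absurd h3 h4.2
    rw [hi, hj]
    exact ⟨h1, h2, h3⟩

theorem s_a (hCH : S_CH) (hCOL : S_COL) (hGP : S_GP) (hSLAB : S_SLAB) (hEDGE : S_EDGE)
    (hMEAS : S_MEAS) : S_A := by
  intro d ε δ hε hδ
  obtain ⟨N, hN⟩ := exists_nat_gt (d / (2 * ε ^ 2 * δ) : ℝ)
  have hN0 : 0 < N := by
    have h1 : (0 : ℝ) ≤ d / (2 * ε ^ 2 * δ) := by positivity
    exact_mod_cast lt_of_le_of_lt h1 hN
  have hNr : (0 : ℝ) < N := by exact_mod_cast hN0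
  have hNδ : (d : ℝ) / (2 * N * ε ^ 2) ≤ δ := by
    rw [div_le_iff₀ (by positivity)]
    rw [div_lt_iff₀ (by positivity)] at hN
    nlinarith
  obtain ⟨v, hv, t, ht, hcard⟩ := hGP d N
  choose ti hti hmi using fun i => hSLAB d (v i) (hv i)
  have : Nonempty (Fin N) := ⟨⟨0, hN0⟩⟩
  obtain ⟨i0, hi0⟩ := Finite.exists_min ti
  refine ⟨2 / 3 * min t (ti i0), by have := hti i0; positivity, ?_⟩
  intro n k α hα hαa hk hp
  have h32 : 3 / 2 * α ≤ min t (ti i0) := by linarith
  set R : Fin N → Set (Sph d) := fun i => slab (v i) (3 / 2 * α) with hR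
  have hRm : ∀ i, MeasurableSet (R i) := fun i => (slab_closed _ _).measurableSet
  have key := hCH (Sph d) (unif d) N d R hN0 hRm ?_ ?_ n
    (fun i => {X | (geoR α (R i) X).Colorable k}) (fun i => (hMEAS d n α (R i) (hRm i) (fun G => G.Colorable k)).1)
    ?_ ε hε ?_
  · refine le_trans ?_ (le_trans key ?_)
    · linarith
    · refine measureReal_mono ?_ (measure_ne_top _ _)
      intro X hX
      rw [Set.mem_iUnion] at hX
      obtain ⟨i, hi⟩ := hX
      refine hCOL (Fin n) (geo α X) (geoR α (R i) X) (fun j => ⟪v i, (X j : E d)⟫) α hα ?_ ?_ k hk hi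
      · intro x y hxy
        exact hEDGE d (v i) (X x) (X y) α (hv i) hxy.2
      · intro x y hxy hx hy
        exact ⟨hxy, hx, hy⟩
  · intro i
    refine le_trans (measureReal_mono (slab_mono _ ?_) (measure_ne_top _ _)) (hmi i)
    exact le_trans h32 (le_trans (min_le_right _ _) (hi0 i))
  · intro x
    refine le_trans ?_ (hcard x)
    refine Nat.card_le_card_of_injective
      (fun i : {i : Fin N // x ∈ R i} => (⟨i.1, slab_mono _ (le_trans h32 (min_le_left _ _)) i.2⟩ :
        {i : Fin N // x ∈ slab (v i) t})) ?_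
    intro i j hij
    exact Subtype.ext (congrArg (fun z => z.1) hij)
  · intro i X Y h
    show (geoR α (R i) X).Colorable k ↔ (geoR α (R i) Y).Colorable k
    rw [geoR_local α (R i) X Y h]
  · intro i
    refine le_trans hp ?_
    refine measureReal_mono ?_ (measure_ne_top _ _)
    intro X hX
    have hle : geoR α (R i) X ≤ geo α X := by
      intro x y hxy
      have h2 : (x ≠ y ∧ Real.pi - α < InnerProductGeometry.angle (X x : E d) (X y : E d)) ∧
        X x ∈ R i ∧ X y ∈ R i := hxy
      exact h2.1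
    exact SimpleGraph.Colorable.mono_left hle hX

end Pool.Agent.R225.BO
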