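import Pool.Agent.R225.BO.Defs2

/-! # Random Borsuk graphs: the measure of small caps -/

set_option autoImplicit false

open MeasureTheory Filter Topology
open scoped ENNReal RealInnerProductSpace Pointwise

namespace Pool.Agent.R225.BO

/-- half widths of the box -/
noncomputable def capW (d : ℕ) (t : ℝ) (j : Fin (d + 1)) : ℝ := if j = 0 then 1 else t

/-- the box -/
def capB (d : ℕ) (t : ℝ) : Set (Fin (d + 1) → ℝ) :=
  Set.pi Set.univ fun j => Set.Icc (-capW d t j) (capW d t j)

theorem capB_vol (d : ℕ) (t : ℝ) (ht : 0 ≤ t) :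
    (volume : Measure (Fin (d + 1) → ℝ)) (capB d t) = ENNReal.ofReal (2 * (2 * t) ^ d) := by
  unfold capB
  rw [volume_pi_pi]
  simp only [Real.volume_Icc]
  rw [Fin.prod_univ_succ]
  have h1 : ∀ j : Fin d, ENNReal.ofReal (capW d t j.succ - -capW d t j.succ) =
      ENNReal.ofReal (2 * t) := by
    intro j
    unfold capW
    rw [if_neg (Fin.succ_ne_zero j)]
    congr 1
    ring
  have h0 : ENNReal.ofReal (capW d t 0 - -capW d t 0) = ENNReal.ofReal 2 := by
    unfold capW
    rw [if_pos rfl]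
    congr 1
    norm_num
  rw [h0, Finset.prod_congr rfl fun j _ => h1 j, Finset.prod_const, Finset.card_univ,
    Fintype.card_fin, ← ENNReal.ofReal_pow (by positivity), ← ENNReal.ofReal_mul (by norm_num)]

theorem capB_meas (d : ℕ) (t : ℝ) : MeasurableSet (capB d t) :=
  MeasurableSet.univ_pi fun _ => measurableSet_Icc

theorem cap_closed (d : ℕ) (x : Sph d) (t : ℝ) : IsClosed {y : Sph d | rho x y ≤ t} := by
  unfold rho
  refine isClosed_le ?_ continuous_const
  fun_prop

theorem cap_cone (d : ℕ) (x : Sph d) (t : ℝ) :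
    ∃ b : OrthonormalBasis (Fin (d + 1)) ℝ (E d),
      Set.Ioo (0 : ℝ) 1 • (Subtype.val '' {y : Sph d | rho x y ≤ t}) ⊆
        b.repr ⁻¹' (WithLp.ofLp ⁻¹' capB d t) := by
  have hx : ‖(x : E d)‖ = 1 := by simp
  have hor : Orthonormal ℝ (({0} : Set (Fin (d + 1))).domRestrict fun _ => (x : E d)) := by
    constructor
    · intro i
      exact hx
    · intro i j hij
      exact absurd (Subsingleton.elim i j) hij
  obtain ⟨b, hb⟩ := hor.exists_orthonormalBasis_extension_of_card_eq (by simp)
  have hb0 : b 0 = (x : E d) := hb 0 rfl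
  refine ⟨b, ?_⟩
  rintro z hz
  rw [Set.mem_smul] at hz
  obtain ⟨l, hl, y', ⟨y, hy, rfl⟩, rfl⟩ := hz
  have hy1 : ‖(y : E d)‖ = 1 := by simp
  have hy2 : rho x y ≤ t := hy
  simp only [Set.mem_preimage, capB, Set.mem_pi, Set.mem_univ, forall_true_left, Set.mem_Icc]
  intro j
  rw [← abs_le, b.repr_apply_apply, real_inner_smul_right, abs_mul, abs_of_pos hl.1]
  have hbj : ‖b j‖ = 1 := b.orthonormal.1 j
  unfold capW
  split_ifs with hj
  · have h1 : |⟪b j, (y : E d)⟫| ≤ 1 := by
      have := abs_real_inner_le_norm (b j) (y : E d)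
      rwa [hbj, hy1, one_mul] at this
    nlinarith [hl.1, hl.2, abs_nonneg ⟪b j, (y : E d)⟫]
  · have h0 : ⟪b j, (x : E d)⟫ = 0 := by
      rw [← hb0]
      exact b.orthonormal.2 hj
    have h1 : |⟪b j, (y : E d)⟫| ≤ t := by
      unfold rho at hy2
      rcases min_le_iff.1 hy2 with h | h
      · have h2 := abs_real_inner_le_norm (b j) ((x : E d) - (y : E d))
        rw [inner_sub_right, h0, zero_sub, abs_neg, hbj, one_mul] at h2
        exact h2.trans h
      · have h2 := abs_real_inner_le_norm (b j) ((x : E d) + (y : E d))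
        rw [inner_add_right, h0, zero_add, hbj, one_mul] at h2
        exact h2.trans h
    nlinarith [hl.1, hl.2, abs_nonneg ⟪b j, (y : E d)⟫]

theorem cap_sph (d : ℕ) (x : Sph d) (t : ℝ) (ht : 0 ≤ t) :
    (volume : Measure (E d)).toSphere {y : Sph d | rho x y ≤ t} ≤
      ENNReal.ofReal ((d + 1 : ℕ) * (2 * (2 * t) ^ d)) := by
  rw [Measure.toSphere_apply' _ (cap_closed d x t).measurableSet]
  obtain ⟨b, hb⟩ := cap_cone d x t
  have h1 := measure_mono (μ := (volume : Measure (E d))) hb
  have h2 : (volume : Measure (E d)) (b.repr ⁻¹' (WithLp.ofLp ⁻¹' capB d t)) =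
      ENNReal.ofReal (2 * (2 * t) ^ d) := by
    have hm : MeasurableSet ((WithLp.ofLp : E d → (Fin (d + 1) → ℝ)) ⁻¹' capB d t) :=
      (PiLp.volume_preserving_ofLp (Fin (d + 1))).measurable (capB_meas d t)
    rw [b.measurePreserving_repr.measure_preimage hm.nullMeasurableSet,
      (PiLp.volume_preserving_ofLp (Fin (d + 1))).measure_preimage
        (capB_meas d t).nullMeasurableSet, capB_vol d t ht]
  rw [h2] at h1
  have h3 : Module.finrank ℝ (E d) = d + 1 := by simp
  rw [h3, ENNReal.ofReal_mul (by positivity), ENNReal.ofReal_natCast]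
  gcongr

theorem s_cap : S_CAP := by
  intro d
  refine ⟨(((volume : Measure (E d)).toSphere Set.univ)⁻¹).toReal *
    ((d + 1 : ℕ) * (2 * 2 ^ d)) + 1, by positivity, fun x t ht => ?_⟩
  have h1 : (unif d).real {y | rho x y ≤ t} =
      (((volume : Measure (E d)).toSphere Set.univ)⁻¹).toReal *
        ((volume : Measure (E d)).toSphere {y : Sph d | rho x y ≤ t}).toReal := by
    unfold unif
    rw [Measure.real, Measure.smul_apply, smul_eq_mul, ENNReal.toReal_mul]
  have h2 : ((volume : Measure (E d)).toSphere {y : Sph d | rho x y ≤ t}).toReal ≤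
      (d + 1 : ℕ) * (2 * (2 * t) ^ d) :=
    ENNReal.toReal_le_of_le_ofReal (by positivity) (cap_sph d x t ht)
  rw [h1]
  have h3 : (0 : ℝ) ≤ (((volume : Measure (E d)).toSphere Set.univ)⁻¹).toReal :=
    ENNReal.toReal_nonneg
  have h4 : (0 : ℝ) ≤ t ^ d := by positivity
  calc _ ≤ (((volume : Measure (E d)).toSphere Set.univ)⁻¹).toReal *
        ((d + 1 : ℕ) * (2 * (2 * t) ^ d)) := mul_le_mul_of_nonneg_left h2 h3
    _ = (((volume : Measure (E d)).toSphere Set.univ)⁻¹).toReal *
        ((d + 1 : ℕ) * (2 * 2 ^ d)) * t ^ d := by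
      rw [mul_pow]
      ring
    _ ≤ _ := by
      rw [add_mul, one_mul]
      linarith

end Pool.Agent.R225.BO
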