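import Pool.Agent.R225.BO.Defs

/-! # Random Borsuk graphs: Chebyshev -/

set_option autoImplicit false

open MeasureTheory Filter Topology
open scoped ENNReal RealInnerProductSpace

namespace Pool.Agent.R225.BO

theorem s_ch : S_V → S_CH := by
  intro hV Ω _ μ _ N d R hN hR hR2 hRd n A hA hloc ε hε hp
  set π := Measure.pi (fun _ : Fin n => μ) with hπ
  have hb : ∀ i X, |(A i).indicator (fun _ => (1 : ℝ)) X| ≤ 1 := by
    intro i X
    by_cases h : X ∈ A i
    · simp [h]
    · simp [h]
  have hm : ∀ i, Measurable ((A i).indicator (fun _ => (1 : ℝ))) := fun i =>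
    measurable_const.indicator (hA i)
  have hI : ∀ i, Integrable ((A i).indicator (fun _ => (1 : ℝ))) π := fun i =>
    (integrable_const 1).indicator (hA i)
  have hint : ∀ i, ∫ X, (A i).indicator (fun _ => (1 : ℝ)) X ∂π = π.real (A i) := by
    intro i
    rw [integral_indicator_const _ (hA i), smul_eq_mul, mul_one]
  have key := hV Ω μ N d R hR hR2 hRd n (fun i => (A i).indicator (fun _ => (1 : ℝ))) hm hb (by
    intro i X Y h
    have := hloc i X Y h
    by_cases hX : X ∈ A i
    · have hY := this.1 hX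
      simp [hX, hY]
    · have hY : Y ∉ A i := fun h => hX (this.2 h)
      simp [hX, hY])
  set F : (Fin n → Ω) → ℝ := fun X => ∑ i, (A i).indicator (fun _ => (1 : ℝ)) X with hF
  have hFm : Measurable F := Finset.measurable_sum _ fun i _ => hm i
  have hFi : Integrable F π := integrable_finsetSum _ fun i _ => hI i
  have hF0 : ∀ X, |F X| ≤ N := by
    intro X
    refine (Finset.abs_sum_le_sum_abs _ _).trans ?_
    refine (Finset.sum_le_sum fun i _ => hb i X).trans ?_
    simp
  have hF2 : Integrable (fun X => F X ^ 2) π := by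
    refine Integrable.of_bound (hFm.pow_const 2).aestronglyMeasurable ((N : ℝ) ^ 2)
      (Eventually.of_forall fun X => ?_)
    rw [Real.norm_eq_abs, abs_pow]
    exact pow_le_pow_left₀ (abs_nonneg _) (hF0 X) 2
  set m : ℝ := ∫ X, F X ∂π with hmd
  have hmε : N * ε ≤ m := by
    have e : m = ∑ i, π.real (A i) := by
      rw [hmd, hF, integral_finsetSum _ fun i _ => hI i]
      exact Finset.sum_congr rfl fun i _ => hint i
    rw [e]
    calc N * ε = ∑ _i : Fin N, ε := by simp
      _ ≤ _ := Finset.sum_le_sum fun i _ => hp i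
  have hvr : ∀ i, vr π ((A i).indicator (fun _ => (1 : ℝ))) ≤ 1 / 4 := by
    intro i
    have e : (fun X => (A i).indicator (fun _ => (1 : ℝ)) X ^ 2)
        = (A i).indicator (fun _ => (1 : ℝ)) := by
      funext X
      by_cases h : X ∈ A i
      · simp [h]
      · simp [h]
    unfold vr
    rw [e, hint i]
    nlinarith [sq_nonneg (π.real (A i) - 1 / 2)]
  have hsum : ∑ i, vr π ((A i).indicator (fun _ => (1 : ℝ))) ≤ N / 4 := by
    refine (Finset.sum_le_sum fun i _ => hvr i).trans ?_
    simp
    linarith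
  have hvF : vr π F ≤ d * N / 2 := by
    refine key.trans ?_
    have : (0 : ℝ) ≤ 2 * d := by positivity
    calc 2 * d * ∑ i, vr π ((A i).indicator (fun _ => (1 : ℝ))) ≤ 2 * d * (N / 4) :=
          mul_le_mul_of_nonneg_left hsum this
      _ = d * N / 2 := by ring
  have hU : MeasurableSet (⋃ i, A i) := MeasurableSet.iUnion hA
  have hlow : m ^ 2 * (1 - π.real (⋃ i, A i)) ≤ vr π F := by
    have e1 : ∫ X, (m ^ 2 * (1 - (⋃ i, A i).indicator (fun _ => (1 : ℝ)) X)) ∂π
        = m ^ 2 * (1 - π.real (⋃ i, A i)) := by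
      rw [integral_const_mul, integral_sub (integrable_const 1) ((integrable_const 1).indicator hU),
        integral_indicator_const _ hU]
      simp
    have i2 : Integrable (fun X => 2 * m * F X) π := hFi.const_mul _
    have i3 : Integrable (fun X => F X ^ 2 - 2 * m * F X) π := hF2.sub i2
    have e2 : ∫ X, (F X ^ 2 - 2 * m * F X + m ^ 2) ∂π = vr π F := by
      have a1 : ∫ X, (F X ^ 2 - 2 * m * F X + m ^ 2) ∂π
          = ∫ X, (F X ^ 2 - 2 * m * F X) ∂π + ∫ _X, m ^ 2 ∂π := integral_add i3 (integrable_const _)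
      have a2 : ∫ X, (F X ^ 2 - 2 * m * F X) ∂π = ∫ X, F X ^ 2 ∂π - ∫ X, 2 * m * F X ∂π :=
        integral_sub hF2 i2
      have a3 : ∫ X, 2 * m * F X ∂π = 2 * m * m := by rw [integral_const_mul]
      have a4 : ∫ _X, m ^ 2 ∂π = m ^ 2 := by simp
      unfold vr
      rw [a1, a2, a3, a4, ← hmd]
      ring
    rw [← e1, ← e2]
    refine integral_mono (((integrable_const 1).sub ((integrable_const 1).indicator hU)).const_mul _)
      (i3.add (integrable_const _)) fun X => ?_
    show m ^ 2 * (1 - (⋃ i, A i).indicator (fun _ => (1 : ℝ)) X) ≤ F X ^ 2 - 2 * m * F X + m ^ 2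
    by_cases h : X ∈ ⋃ i, A i
    · rw [Set.indicator_of_mem h]
      nlinarith [sq_nonneg (F X - m)]
    · rw [Set.indicator_of_notMem h]
      have : F X = 0 := by
        refine Finset.sum_eq_zero fun i _ => Set.indicator_of_notMem (fun hi => h ?_) _
        exact Set.mem_iUnion.2 ⟨i, hi⟩
      rw [this]
      linarith
  have hN' : (0 : ℝ) < N := by exact_mod_cast hN
  have hP1 : 0 ≤ 1 - π.real (⋃ i, A i) := by
    have : π.real (⋃ i, A i) ≤ 1 := measureReal_le_one
    linarith
  have h3 : (N * ε) ^ 2 * (1 - π.real (⋃ i, A i)) ≤ d * N / 2 := by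
    have h4 : (N * ε) ^ 2 ≤ m ^ 2 := pow_le_pow_left₀ (by positivity) hmε 2
    exact ((mul_le_mul_of_nonneg_right h4 hP1).trans hlow).trans hvF
  have h5 : 1 - π.real (⋃ i, A i) ≤ d / (2 * N * ε ^ 2) := by
    rw [le_div_iff₀ (by positivity)]
    have h6 : N * ((1 - π.real (⋃ i, A i)) * (2 * N * ε ^ 2)) ≤ N * d := by nlinarith
    exact le_of_mul_le_mul_left h6 hN'
  linarith

end Pool.Agent.R225.BO
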