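import Pool.Agent.R225.BO.Defs2

set_option autoImplicit false

namespace Pool.Agent.R225.BO

open MeasureTheory Set

theorem chain_meas {Ω : Type} [MeasurableSpace Ω] {r : Ω → Ω → Prop}
    (hr : MeasurableSet {p : Ω × Ω | r p.1 p.2}) (m : ℕ) :
    MeasurableSet {Y : Fin (m + 1) → Ω | ∀ l : Fin m, r (Y l.castSucc) (Y l.succ)} := by
  have h : {Y : Fin (m + 1) → Ω | ∀ l : Fin m, r (Y l.castSucc) (Y l.succ)} =
      ⋂ l : Fin m, (fun Y : Fin (m + 1) → Ω => (Y l.castSucc, Y l.succ)) ⁻¹'
        {p : Ω × Ω | r p.1 p.2} := by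
    ext Y
    simp
  rw [h]
  refine MeasurableSet.iInter (fun l => ?_)
  exact ((measurable_pi_apply _).prodMk (measurable_pi_apply _)) hr

theorem chain_enn {Ω : Type} [MeasurableSpace Ω] {μ : Measure Ω} [IsProbabilityMeasure μ]
    {r : Ω → Ω → Prop} {Q : ENNReal} (hr : MeasurableSet {p : Ω × Ω | r p.1 p.2})
    (hQ : ∀ x, μ {y | r x y} ≤ Q) (m : ℕ) :
    (Measure.pi fun _ : Fin (m + 1) => μ)
      {Y | ∀ l : Fin m, r (Y l.castSucc) (Y l.succ)} ≤ Q ^ m := by
  induction m with
  | zero =>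
    rw [pow_zero]
    exact prob_le_one
  | succ m ih =>
    have mp := measurePreserving_piFinSuccAbove (fun _ : Fin (m + 1 + 1) => μ) (Fin.last (m + 1))
    obtain ⟨F, hFdef⟩ : ∃ F : Set (Ω × (Fin (m + 1) → Ω)),
      F = {p | (∀ l : Fin m, r (p.2 l.castSucc) (p.2 l.succ)) ∧ r (p.2 (Fin.last m)) p.1} :=
      ⟨_, rfl⟩
    have hF : MeasurableSet F := by
      rw [hFdef]
      refine MeasurableSet.inter ?_ ?_
      · exact measurable_snd (chain_meas hr m)
      · have h2 : Measurable (fun p : Ω × (Fin (m + 1) → Ω) => (p.2 (Fin.last m), p.1)) :=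
          ((measurable_pi_apply _).comp measurable_snd).prodMk measurable_fst
        exact h2 hr
    have hE : {Y : Fin (m + 1 + 1) → Ω | ∀ l : Fin (m + 1), r (Y l.castSucc) (Y l.succ)} =
        (MeasurableEquiv.piFinSuccAbove (fun _ => Ω) (Fin.last (m + 1))) ⁻¹' F := by
      ext Y
      rw [hFdef]
      have h3 : (MeasurableEquiv.piFinSuccAbove (fun _ => Ω) (Fin.last (m + 1))) Y =
          (Y (Fin.last (m + 1)), fun j => Y ((Fin.last (m + 1)).succAbove j)) := rfl
      simp only [mem_setOf_eq, mem_preimage, h3, Fin.succAbove_last]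
      rw [Fin.forall_fin_succ']
      simp only [Fin.succ_last, Fin.succ_castSucc]
    rw [hE, mp.measure_preimage hF.nullMeasurableSet, Measure.prod_apply_symm hF]
    calc ∫⁻ Z, μ ((fun y => (y, Z)) ⁻¹' F) ∂(Measure.pi fun _ : Fin (m + 1) => μ)
        ≤ ∫⁻ Z, ({Y : Fin (m + 1) → Ω | ∀ l : Fin m, r (Y l.castSucc) (Y l.succ)}).indicator
            (fun _ => Q) Z ∂(Measure.pi fun _ : Fin (m + 1) => μ) := by
          refine lintegral_mono (fun Z => ?_)
          by_cases hZ : Z ∈ {Y : Fin (m + 1) → Ω | ∀ l : Fin m, r (Y l.castSucc) (Y l.succ)}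
          · rw [indicator_of_mem hZ]
            refine (measure_mono ?_).trans (hQ (Z (Fin.last m)))
            intro y hy
            rw [hFdef] at hy
            exact hy.2
          · rw [indicator_of_notMem hZ]
            have h0 : (fun y => (y, Z)) ⁻¹' F = ∅ := by
              rw [eq_empty_iff_forall_notMem]
              intro y hy
              rw [hFdef] at hy
              exact hZ hy.1
            rw [h0, measure_empty]
      _ = Q * (Measure.pi fun _ : Fin (m + 1) => μ)
            {Y : Fin (m + 1) → Ω | ∀ l : Fin m, r (Y l.castSucc) (Y l.succ)} :=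
          lintegral_indicator_const (chain_meas hr m) Q
      _ ≤ Q * Q ^ m := mul_le_mul_right ih Q
      _ = Q ^ (m + 1) := (pow_succ' Q m).symm

theorem s_chain : S_CHAIN := by
  intro Ω _ μ _ r q hr hq m
  have hne : Nonempty Ω := μ.nonempty_of_neZero
  obtain ⟨x0⟩ := hne
  have hq0 : 0 ≤ q := measureReal_nonneg.trans (hq x0)
  have hQ : ∀ x, μ {y | r x y} ≤ ENNReal.ofReal q := by
    intro x
    rw [← ENNReal.ofReal_toReal (measure_ne_top μ {y | r x y})]
    exact ENNReal.ofReal_le_ofReal (hq x)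
  have h := chain_enn hr hQ m
  rw [measureReal_def]
  refine (ENNReal.toReal_mono (ENNReal.pow_ne_top ENNReal.ofReal_ne_top) h).trans ?_
  rw [ENNReal.toReal_pow, ENNReal.toReal_ofReal hq0]

end Pool.Agent.R225.BO
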