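import Pool.Agent.R225.BO.Defs2

/-! BG-CLUS: without long paths all clusters are small. -/

set_option autoImplicit false

namespace Pool.Agent.R225.BO

theorem s_clus : S_CLUS := by
  intro V H D t m ht h0 htri hadj hno x y hxy
  classical
  obtain ⟨w⟩ := hxy
  have hlen : ∀ (x y : V) (w : H.Walk x y), D x y ≤ w.length * t := by
    intro x y w
    induction w with
    | nil => simp [h0]
    | @cons u v z hadj' w ih =>
      have h1 := htri u v z
      have h2 := hadj u v hadj'
      rw [SimpleGraph.Walk.length_cons]
      push_cast
      linarith
  have hlt : m ≤ (w.toPath : H.Walk x y).length ∨ D x y ≤ m * t := by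
    by_cases hlt : m ≤ (w.toPath : H.Walk x y).length
    · exact Or.inl hlt
    · right
      push Not at hlt
      have h1 := hlen x y w.toPath
      have h2 : ((w.toPath : H.Walk x y).length : ℝ) * t ≤ m * t :=
        mul_le_mul_of_nonneg_right (by exact_mod_cast hlt.le) ht
      linarith
  rcases hlt with hlt | hlt
  · exfalso
    apply hno
    refine ⟨fun l => (w.toPath : H.Walk x y).getVert l, ?_, ?_⟩
    · intro a b hab
      have ha : (a : ℕ) ≤ (w.toPath : H.Walk x y).length := by have := a.2; omega
      have hb : (b : ℕ) ≤ (w.toPath : H.Walk x y).length := by have := b.2; omega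
      exact Fin.ext (w.toPath.2.getVert_injOn ha hb hab)
    · intro l
      have h1 := (w.toPath : H.Walk x y).adj_getVert_succ (i := (l : ℕ)) (by have := l.2; omega)
      simpa using h1
  · exact hlt

end Pool.Agent.R225.BO
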