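import Pool.Agent.R225.BO.Defs

set_option autoImplicit false

open scoped RealInnerProductSpace

namespace Pool.Agent.R225.BO

theorem s_col : S_COL := by
  classical
  intro V G H s a ha hG hH k hk hc
  obtain ⟨c⟩ := hc
  have hmid : ∀ x, ¬ a / 2 < s x → ¬ s x < -(3 / 2 * a) → |s x| ≤ 3 / 2 * a := by
    intro x h1 h2
    rw [abs_le]
    constructor <;> linarith
  refine ⟨SimpleGraph.Coloring.mk (fun x => if a / 2 < s x then Fin.last k else
    if s x < -(3 / 2 * a) then (⟨0, by omega⟩ : Fin k).castSucc else (c x).castSucc) ?_⟩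
  intro x y hxy
  have h := abs_lt.1 (hG x y hxy)
  by_cases hx : a / 2 < s x
  · by_cases hy : a / 2 < s y
    · linarith [h.2]
    · rw [if_pos hx, if_neg hy]
      split_ifs
      · exact (Fin.castSucc_lt_last _).ne'
      · exact (Fin.castSucc_lt_last _).ne'
  · by_cases hy : a / 2 < s y
    · rw [if_neg hx, if_pos hy]
      split_ifs
      · exact (Fin.castSucc_lt_last _).ne
      · exact (Fin.castSucc_lt_last _).ne
    · rw [if_neg hx, if_neg hy]
      have hx2 : ¬ s x < -(3 / 2 * a) := by
        intro h2
        apply hy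
        linarith [h.1]
      have hy2 : ¬ s y < -(3 / 2 * a) := by
        intro h2
        apply hx
        linarith [h.1]
      rw [if_neg hx2, if_neg hy2]
      intro h3
      exact c.valid (hH x y hxy (hmid x hx hx2) (hmid y hy hy2)) (Fin.castSucc_injective _ h3)

end Pool.Agent.R225.BO
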