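import Mathlib

/-! # Random Borsuk graphs (MP_a0c464_pr): definitions and statements of the pieces -/

set_option autoImplicit false

open MeasureTheory Filter Topology
open scoped ENNReal RealInnerProductSpace

namespace Pool.Agent.R225.BO

/-- The Euclidean space `ℝ^{d+1}`. -/
abbrev E (d : ℕ) := EuclideanSpace ℝ (Fin (d + 1))

/-- The unit sphere `S^d`. -/
abbrev Sph (d : ℕ) := Metric.sphere (0 : E d) 1

/-- The uniform probability measure on `S^d`: the surface measure divided by its total mass. -/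
noncomputable def unif (d : ℕ) : Measure (Sph d) :=
  ((volume : Measure (E d)).toSphere Set.univ)⁻¹ • (volume : Measure (E d)).toSphere

/-- The joint law of `n` independent uniform points of `S^d`. -/
noncomputable def law (d n : ℕ) : Measure (Fin n → Sph d) := Measure.pi fun _ => unif d

/-- The Borsuk graph: `x ∼ y` iff the angle between `x` and `y` is `> π - α`. -/
def borsuk (d : ℕ) (α : ℝ) : SimpleGraph (Sph d) where
  Adj x y := x ≠ y ∧ Real.pi - α < InnerProductGeometry.angle (x : E d) (y : E d)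
  symm := ⟨fun x y h => ⟨h.1.symm, by rw [InnerProductGeometry.angle_comm]; exact h.2⟩⟩
  loopless := ⟨fun _ h => h.1 rfl⟩

/-- The random Borsuk graph on the points `X 0, …, X (n-1)`. -/
def geo {d n : ℕ} (α : ℝ) (X : Fin n → Sph d) : SimpleGraph (Fin n) where
  Adj i j := i ≠ j ∧ Real.pi - α < InnerProductGeometry.angle (X i : E d) (X j : E d)
  symm := ⟨fun x y h => ⟨h.1.symm, by rw [InnerProductGeometry.angle_comm]; exact h.2⟩⟩
  loopless := ⟨fun _ h => h.1 rfl⟩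

/-- The edges of `geo α X` with both end points in `R`. -/
def geoR {d n : ℕ} (α : ℝ) (R : Set (Sph d)) (X : Fin n → Sph d) : SimpleGraph (Fin n) where
  Adj i j := (i ≠ j ∧ Real.pi - α < InnerProductGeometry.angle (X i : E d) (X j : E d)) ∧
    X i ∈ R ∧ X j ∈ R
  symm := ⟨fun x y h => ⟨⟨h.1.1.symm, by rw [InnerProductGeometry.angle_comm]; exact h.1.2⟩,
    h.2.2, h.2.1⟩⟩
  loopless := ⟨fun _ h => h.1.1 rfl⟩

/-- The slab of half width `t` around the great hypersurface orthogonal to `v`. -/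
def slab {d : ℕ} (v : E d) (t : ℝ) : Set (Sph d) := {x | |⟪v, (x : E d)⟫| ≤ t}

/-- Variance of a bounded function. -/
noncomputable def vr {Ω : Type} [MeasurableSpace Ω] (μ : Measure Ω) (f : Ω → ℝ) : ℝ :=
  ∫ x, (f x) ^ 2 ∂μ - (∫ x, f x ∂μ) ^ 2

/-- BO-V1: the variance bound for one variable. -/
def S_V1 : Prop := ∀ (Ω : Type) [MeasurableSpace Ω] (μ : Measure Ω) [IsProbabilityMeasure μ]
  (N d : ℕ) (R : Fin N → Set Ω), (∀ i, MeasurableSet (R i)) → (∀ i, μ.real (R i) ≤ 1 / 2) →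
  (∀ x, Nat.card {i : Fin N // x ∈ R i} ≤ d) →
  ∀ g : Fin N → Ω → ℝ, (∀ i, Measurable (g i)) → (∀ i x, |g i x| ≤ 1) →
  (∀ i x y, x ∉ R i → y ∉ R i → g i x = g i y) →
  vr μ (fun x => ∑ i, g i x) ≤ 2 * d * ∑ i, vr μ (g i)

/-- BO-V: the variance bound for `n` independent variables. -/
def S_V : Prop := ∀ (Ω : Type) [MeasurableSpace Ω] (μ : Measure Ω) [IsProbabilityMeasure μ]
  (N d : ℕ) (R : Fin N → Set Ω), (∀ i, MeasurableSet (R i)) → (∀ i, μ.real (R i) ≤ 1 / 2) →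
  (∀ x, Nat.card {i : Fin N // x ∈ R i} ≤ d) →
  ∀ (n : ℕ) (f : Fin N → (Fin n → Ω) → ℝ), (∀ i, Measurable (f i)) → (∀ i X, |f i X| ≤ 1) →
  (∀ i X Y, (∀ j, X j = Y j ∨ (X j ∉ R i ∧ Y j ∉ R i)) → f i X = f i Y) →
  vr (Measure.pi fun _ : Fin n => μ) (fun X => ∑ i, f i X) ≤
    2 * d * ∑ i, vr (Measure.pi fun _ : Fin n => μ) (f i)

/-- BO-CH: at least one of many local events occurs (Chebyshev). -/
def S_CH : Prop := ∀ (Ω : Type) [MeasurableSpace Ω] (μ : Measure Ω) [IsProbabilityMeasure μ]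
  (N d : ℕ) (R : Fin N → Set Ω), 0 < N → (∀ i, MeasurableSet (R i)) →
  (∀ i, μ.real (R i) ≤ 1 / 2) → (∀ x, Nat.card {i : Fin N // x ∈ R i} ≤ d) →
  ∀ (n : ℕ) (A : Fin N → Set (Fin n → Ω)), (∀ i, MeasurableSet (A i)) →
  (∀ i X Y, (∀ j, X j = Y j ∨ (X j ∉ R i ∧ Y j ∉ R i)) → (X ∈ A i ↔ Y ∈ A i)) →
  ∀ ε : ℝ, 0 < ε → (∀ i, ε ≤ (Measure.pi fun _ : Fin n => μ).real (A i)) →
  1 - d / (2 * N * ε ^ 2) ≤ (Measure.pi fun _ : Fin n => μ).real (⋃ i, A i)

/-- BO-COL: the deterministic colouring lemma. -/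
def S_COL : Prop := ∀ (V : Type) (G H : SimpleGraph V) (s : V → ℝ) (a : ℝ), 0 < a →
  (∀ x y, G.Adj x y → |s x + s y| < a) →
  (∀ x y, G.Adj x y → |s x| ≤ 3 / 2 * a → |s y| ≤ 3 / 2 * a → H.Adj x y) →
  ∀ k : ℕ, 1 ≤ k → H.Colorable k → G.Colorable (k + 1)

/-- BO-GP: `N` unit vectors such that every point of the sphere is close to at most `d` of the
orthogonal great hypersurfaces. -/
def S_GP : Prop := ∀ d N : ℕ, ∃ v : Fin N → E d, (∀ i, ‖v i‖ = 1) ∧ ∃ t : ℝ, 0 < t ∧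
  ∀ x : Sph d, Nat.card {i : Fin N // x ∈ slab (v i) t} ≤ d

/-- BO-SLAB: thin slabs have measure at most one half. -/
def S_SLAB : Prop := ∀ (d : ℕ) (v : E d), ‖v‖ = 1 → ∃ t : ℝ, 0 < t ∧ (unif d).real (slab v t) ≤ 1 / 2

/-- BO-EDGE: adjacent points are almost antipodal. -/
def S_EDGE : Prop := ∀ (d : ℕ) (v : E d) (x y : Sph d) (α : ℝ), ‖v‖ = 1 →
  Real.pi - α < InnerProductGeometry.angle (x : E d) (y : E d) →
  |⟪v, (x : E d)⟫ + ⟪v, (y : E d)⟫| < α

/-- BO-MEAS: measurability. -/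
def S_MEAS : Prop := ∀ (d n : ℕ) (α : ℝ) (R : Set (Sph d)), MeasurableSet R → ∀ P : SimpleGraph (Fin n) → Prop,
  MeasurableSet {X : Fin n → Sph d | P (geoR α R X)} ∧ MeasurableSet {X : Fin n → Sph d | P (geo α X)}

/-- BO-A: if the random graph is `k`-colourable with probability `≥ ε` then it is
`(k+1)`-colourable with probability `≥ 1 - δ`, for all small `α`, uniformly in `n`. -/
def S_A : Prop := ∀ (d : ℕ) (ε δ : ℝ), 0 < ε → 0 < δ → ∃ a : ℝ, 0 < a ∧ ∀ (n k : ℕ) (α : ℝ),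
  0 < α → α < a → 1 ≤ k → ε ≤ (law d n).real {X | (geo α X).Colorable k} →
  1 - δ ≤ (law d n).real {X | (geo α X).Colorable (k + 1)}

/-- BO-FIN: compactness (De Bruijn-Erdős) and perturbation. -/
def S_FIN : Prop := ∀ (d : ℕ) (a : ℝ), 0 < a → a ≤ 1 → ¬ (borsuk d (a / 2)).Colorable (d + 1) →
  ∃ (m : ℕ) (p : Fin m → Sph d), ∀ (n : ℕ) (X : Fin n → Sph d),
    (∀ i, ∃ j, InnerProductGeometry.angle (X j : E d) (p i : E d) < a / 4) →
    ∀ α : ℝ, a ≤ α → ¬ (geo α X).Colorable (d + 1)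

/-- BO-NET: random points come close to finitely many given points. -/
def S_NET : Prop := ∀ (d m : ℕ) (p : Fin m → Sph d) (b δ : ℝ), 0 < b → 0 < δ →
  ∃ n₀ : ℕ, ∀ n ≥ n₀, 1 - δ ≤ (law d n).real
    {X | ∀ i, ∃ j, InnerProductGeometry.angle (X j : E d) (p i : E d) < b}

/-- BO-UP: the random graph is `(d+2)`-colourable. -/
def S_UP : Prop := ∀ (d n : ℕ) (α : ℝ) (X : Fin n → Sph d), 1 ≤ d →
  (borsuk d α).Colorable (d + 2) → (geo α X).Colorable (d + 2)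

/-- The main theorem. -/
def S_MAIN : Prop := ∀ d : ℕ, 1 ≤ d → ∀ α₀ : ℝ, 0 < α₀ →
  (∀ α, 0 < α → α < α₀ → (borsuk d α).chromaticNumber = d + 2) →
  ∀ α : ℕ → ℝ, (∀ n, 0 < α n ∧ α n < α₀) → ∃ k : ℕ → ℕ,
    Tendsto (fun n => law d n {X | (geo (α n) X).chromaticNumber = k n ∨
      (geo (α n) X).chromaticNumber = k n + 1}) atTop (𝓝 1)

end Pool.Agent.R225.BO
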