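import Pool.Agent.R225.BO.Defs

/-! # Random Borsuk graphs, part 2 (MP_8410f8_pr): strict separation of the thresholds -/

set_option autoImplicit false

open MeasureTheory Filter Topology
open scoped ENNReal RealInnerProductSpace

namespace Pool.Agent.R225.BO

/-- Distance in the projective space. -/
noncomputable def rho {d : ℕ} (x y : Sph d) : ℝ := min ‖(x : E d) - (y : E d)‖ ‖(x : E d) + (y : E d)‖

/-- BG-RHO: `rho` is a pseudo-metric. -/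
def S_RHO : Prop := ∀ (d : ℕ) (x y z : Sph d), rho x x = 0 ∧ rho x y = rho y x ∧
  rho x z ≤ rho x y + rho y z

/-- BG-CAP: measure of small caps. -/
def S_CAP : Prop := ∀ d : ℕ, ∃ K : ℝ, 0 < K ∧ ∀ (x : Sph d) (t : ℝ), 0 ≤ t →
  (unif d).real {y | rho x y ≤ t} ≤ K * t ^ d

/-- BG-INJ: the law of distinct coordinates. -/
def S_INJ : Prop := ∀ (Ω : Type) [MeasurableSpace Ω] (μ : Measure Ω) [IsProbabilityMeasure μ]
  (n N : ℕ) (e : Fin n → Fin N), Function.Injective e →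
  (Measure.pi fun _ : Fin N => μ).map (fun X i => X (e i)) = Measure.pi fun _ : Fin n => μ

/-- BG-CHAIN: probability of a chain. -/
def S_CHAIN : Prop := ∀ (Ω : Type) [MeasurableSpace Ω] (μ : Measure Ω) [IsProbabilityMeasure μ]
  (r : Ω → Ω → Prop) (q : ℝ), MeasurableSet {p : Ω × Ω | r p.1 p.2} →
  (∀ x, μ.real {y | r x y} ≤ q) → ∀ m : ℕ,
  (Measure.pi fun _ : Fin (m + 1) => μ).real {Y | ∀ l : Fin m, r (Y l.castSucc) (Y l.succ)} ≤ q ^ m

/-- BG-PATH: first moment bound for paths of distinct indices `≥ n`. -/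
def S_PATH : Prop := ∀ (Ω : Type) [MeasurableSpace Ω] (μ : Measure Ω) [IsProbabilityMeasure μ]
  (r : Ω → Ω → Prop) (q : ℝ), MeasurableSet {p : Ω × Ω | r p.1 p.2} →
  (∀ x, μ.real {y | r x y} ≤ q) → ∀ (n N m : ℕ), n ≤ N →
  (Measure.pi fun _ : Fin N => μ).real {X | ∃ p : Fin (m + 1) → Fin N, Function.Injective p ∧
    (∀ l, n ≤ (p l : ℕ)) ∧ ∀ l : Fin m, r (X (p l.castSucc)) (X (p l.succ))} ≤
    ((N : ℝ) - n) ^ (m + 1) * q ^ m

/-- BG-CLUS: without long paths all clusters are small. -/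
def S_CLUS : Prop := ∀ (V : Type) (H : SimpleGraph V) (D : V → V → ℝ) (t : ℝ) (m : ℕ), 0 ≤ t →
  (∀ x, D x x = 0) → (∀ x y z, D x z ≤ D x y + D y z) → (∀ x y, H.Adj x y → D x y ≤ t) →
  (¬ ∃ p : Fin (m + 1) → V, Function.Injective p ∧ ∀ l : Fin m, H.Adj (p l.castSucc) (p l.succ)) →
  ∀ x y, H.Reachable x y → D x y ≤ m * t

/-- The graph of the bad points: joined if their projective distance is at most `3 α`. -/
def badG {d N : ℕ} (α : ℝ) (Bad : Set (Fin N)) (X : Fin N → Sph d) : SimpleGraph (Fin N) where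
  Adj i j := i ≠ j ∧ i ∈ Bad ∧ j ∈ Bad ∧ min (rho (X i) (X j)) (rho (X j) (X i)) ≤ 3 * α
  symm := ⟨fun x y h => ⟨h.1.symm, h.2.2.1, h.2.1, by rw [min_comm]; exact h.2.2.2⟩⟩
  loopless := ⟨fun _ h => h.1 rfl⟩

/-- The edges of `geo α X` between good points of `R`. -/
def goodG {d N : ℕ} (α : ℝ) (Bad : Set (Fin N)) (R : Set (Sph d)) (X : Fin N → Sph d) :
    SimpleGraph (Fin N) where
  Adj i j := (i ≠ j ∧ Real.pi - α < InnerProductGeometry.angle (X i : E d) (X j : E d)) ∧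
    (i ∉ Bad ∧ X i ∈ R) ∧ (j ∉ Bad ∧ X j ∈ R)
  symm := ⟨fun x y h => ⟨⟨h.1.1.symm, by rw [InnerProductGeometry.angle_comm]; exact h.1.2⟩,
    h.2.2, h.2.1⟩⟩
  loopless := ⟨fun _ h => h.1.1 rfl⟩

/-- BG-REC: the recolouring lemma. -/
def S_REC : Prop := ∀ (d N : ℕ) (X : Fin N → Sph d) (Bad : Set (Fin N)) (v : E d) (α r : ℝ),
  ‖v‖ = 1 → 0 < α → 0 ≤ r → 2 * r + 3 * α ≤ 2 →
  (∀ i j, i ∈ Bad → j ∈ Bad → (badG α Bad X).Reachable i j → rho (X i) (X j) ≤ r) →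
  ∀ k : ℕ, 1 ≤ k → (goodG α Bad (slab v (r + 3 * α)) X).Colorable k → (geo α X).Colorable (k + 1)

/-- BG-MARG: marginals of the product measure. -/
def S_MARG : Prop := ∀ (d n N : ℕ) (h : n ≤ N) (A : Set (Fin n → Sph d)), MeasurableSet A →
  (law d N).real {X | (fun i : Fin n => X (Fin.castLE h i)) ∈ A} = (law d n).real A

/-- BG-GAP: adding `η n` further random points increases the chromatic number by at most one. -/
def S_GAP : Prop := ∀ (d : ℕ) (C : ℝ), 1 ≤ d → 0 < C → ∃ η : ℝ, 0 < η ∧ ∀ ε δ : ℝ, 0 < ε → 0 < δ →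
  ∃ n₀ : ℕ, ∀ n ≥ n₀, ∀ N : ℕ, n ≤ N → (N : ℝ) ≤ (1 + η) * n → ∀ α : ℝ, 0 < α → α ^ d * n ≤ C →
  ∀ k : ℕ, 1 ≤ k → ε ≤ (law d n).real {X | (geo α X).Colorable k} →
    1 - δ ≤ (law d N).real {X | (geo α X).Colorable (k + 1)}

/-- `c n^{-1/d}` is a sharp threshold for `χ > k`. -/
def Sharp (d k : ℕ) (c : ℝ) : Prop := ∀ ε : ℝ, 0 < ε → ∀ α : ℕ → ℝ, (∀ n, 0 < α n) →
  ((∀ n : ℕ, 1 ≤ n → (1 + ε) * c * (n : ℝ) ^ (-(1 / d : ℝ)) < α n) →
    Tendsto (fun n => law d n {X | ¬ (geo (α n) X).Colorable k}) atTop (𝓝 1)) ∧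
  ((∀ n : ℕ, 1 ≤ n → α n < (1 - ε) * c * (n : ℝ) ^ (-(1 / d : ℝ))) →
    Tendsto (fun n => law d n {X | ¬ (geo (α n) X).Colorable k}) atTop (𝓝 0))

/-- BG-ORD: sharp threshold constants are strictly increasing. -/
def S_ORD : Prop := ∀ (d k : ℕ) (c c' : ℝ), 1 ≤ d → 1 ≤ k → 0 < c → 0 < c' →
  Sharp d k c → Sharp d (k + 1) c' → c < c'

end Pool.Agent.R225.BO
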