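import Pool.Agent.R225.BO.Defs

set_option autoImplicit false

open scoped RealInnerProductSpace

namespace Pool.Agent.R225.BO

theorem s_edge : S_EDGE := by
  intro d v x y α hv hα
  have hx : ‖(x : E d)‖ = 1 := mem_sphere_zero_iff_norm.1 x.2
  have hy : ‖(y : E d)‖ = 1 := mem_sphere_zero_iff_norm.1 y.2
  obtain ⟨θ, hθ⟩ : ∃ θ : ℝ, θ = Real.pi - InnerProductGeometry.angle (x : E d) (y : E d) := ⟨_, rfl⟩
  have hθ0 : 0 ≤ θ := by
    rw [hθ]
    linarith [InnerProductGeometry.angle_le_pi (x : E d) (y : E d)]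
  have hθα : θ < α := by linarith
  have h1 : ⟪(x : E d), (y : E d)⟫ = -Real.cos θ := by
    rw [hθ, Real.cos_pi_sub, neg_neg,
      ← InnerProductGeometry.cos_angle_mul_norm_mul_norm (x : E d) (y : E d), hx, hy]
    ring
  have h2 : ‖(x : E d) + (y : E d)‖ ^ 2 ≤ θ ^ 2 := by
    rw [norm_add_sq_real, h1, hx, hy]
    linarith [Real.one_sub_sq_div_two_le_cos (x := θ)]
  have h3 : ‖(x : E d) + (y : E d)‖ ≤ θ := by
    exact (pow_le_pow_iff_left₀ (norm_nonneg _) hθ0 two_ne_zero).1 h2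
  rw [← inner_add_right]
  calc |⟪v, (x : E d) + (y : E d)⟫| ≤ ‖v‖ * ‖(x : E d) + (y : E d)‖ := abs_real_inner_le_norm _ _
    _ = ‖(x : E d) + (y : E d)‖ := by rw [hv, one_mul]
    _ ≤ θ := h3
    _ < α := hθα

end Pool.Agent.R225.BO
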