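import Pool.Agent.R225.BO.Defs

/-! # Random Borsuk graphs (MP_a0c464_pr), piece FIN: compactness and perturbation -/

set_option autoImplicit false

open MeasureTheory Filter Topology
open scoped ENNReal RealInnerProductSpace

namespace Pool.Agent.R225.BO

/-- De Bruijn-Erdős: a graph which is not `k`-colourable has a finite set of vertices whose induced
subgraph is not `k`-colourable. -/
lemma exists_finite_not_colorable {V : Type} (G : SimpleGraph V) (k : ℕ) (h : ¬ G.Colorable k) :
    ∃ S : Set V, S.Finite ∧ ¬ (G.induce S).Colorable k := by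
  by_contra hcon
  push Not at hcon
  apply h
  refine SimpleGraph.nonempty_hom_of_forall_finite_subgraph_hom
    (F := (⊤ : SimpleGraph (Fin k))) (G := G) ?_
  intro G' hfin
  have h2 := hcon G'.verts hfin
  let C : (G.induce G'.verts).Coloring (Fin k) := Classical.choice h2
  exact ⟨fun x => C x, fun {x y} hxy => C.map_rel (G'.adj_sub hxy)⟩

theorem s_fin : S_FIN := by
  intro d a ha ha1 hnc
  obtain ⟨S, hS, hSnc⟩ := exists_finite_not_colorable _ _ hnc
  have := hS.fintype
  let e := Fintype.equivFin S
  refine ⟨Fintype.card S, fun i => (e.symm i : Sph d), ?_⟩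
  intro n X hX α hα hcol
  choose j hj using hX
  apply hSnc
  let C : (geo α X).Coloring (Fin (d + 1)) := Classical.choice hcol
  have hpi := Real.pi_gt_three
  have hC : ∀ s : S, InnerProductGeometry.angle (X (j (e s)) : E d) ((s : Sph d) : E d) < a / 4 := by
    intro s
    have h1 := hj (e s)
    simpa using h1
  refine ⟨⟨fun s => C (j (e s)), ?_⟩⟩
  intro s s' hss
  have hadj : (borsuk d (a / 2)).Adj (s : Sph d) (s' : Sph d) := hss
  have h1 := hadj.2
  have h2 := hC s
  have h3 := hC s'
  rw [InnerProductGeometry.angle_comm] at h2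
  have h4 := InnerProductGeometry.angle_le_angle_add_angle ((s : Sph d) : E d)
    (X (j (e s)) : E d) ((s' : Sph d) : E d)
  have h5 := InnerProductGeometry.angle_le_angle_add_angle (X (j (e s)) : E d)
    (X (j (e s')) : E d) ((s' : Sph d) : E d)
  apply C.map_rel
  refine ⟨?_, ?_⟩
  · intro heq
    rw [heq] at h4 h2
    linarith
  · linarith

end Pool.Agent.R225.BO
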