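import Pool.Agent.R225.BO.Defs

/-! # Random Borsuk graphs (MP_a0c464_pr): slabs in general position (BO-GP) -/

set_option autoImplicit false

open MeasureTheory Filter Topology
open scoped ENNReal RealInnerProductSpace

namespace Pool.Agent.R225.BO

namespace GPx

/-- points of the moment curve -/
noncomputable def w (d : ℕ) (s : ℝ) : E d := WithLp.toLp 2 (fun j : Fin (d + 1) => s ^ (j : ℕ))

theorem w_inner (d : ℕ) (s : ℝ) (x : E d) :
    ⟪w d s, x⟫ = ∑ j : Fin (d + 1), s ^ (j : ℕ) * x j := by
  rw [PiLp.inner_apply]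
  refine Finset.sum_congr rfl fun j _ => ?_
  simp [w, mul_comm]

theorem w_ne (d : ℕ) (s : ℝ) : w d s ≠ 0 := by
  intro h
  have := congrArg (fun f : E d => f 0) h
  simp [w] at this

/-- no nonzero vector is orthogonal to `d + 1` points of the moment curve -/
theorem exists_ne (d : ℕ) (s : Fin (d + 1) → ℝ) (hs : Function.Injective s) (x : E d)
    (hx : x ≠ 0) : ∃ j, ⟪w d (s j), x⟫ ≠ 0 := by
  by_contra hno
  push Not at hno
  apply hx
  have hdet : (Matrix.vandermonde s).det ≠ 0 := Matrix.det_vandermonde_ne_zero_iff.mpr hs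
  have hmul : (Matrix.vandermonde s).mulVec (fun j => x j) = 0 := by
    ext i
    have := hno i
    rw [w_inner] at this
    simpa [Matrix.mulVec, dotProduct, Matrix.vandermonde_apply] using this
  have := Matrix.eq_zero_of_mulVec_eq_zero hdet hmul
  ext j
  exact congrFun this j

theorem pos_bound {ι : Type} [Finite ι] (c : ι → ℝ) (hc : ∀ i, 0 < c i) :
    ∃ t : ℝ, 0 < t ∧ ∀ i, t < c i := by
  classical
  cases nonempty_fintype ι
  rcases isEmpty_or_nonempty ι with h | h
  · exact ⟨1, one_pos, fun i => (h.false i).elim⟩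
  · obtain ⟨i0, h0⟩ := Finite.exists_min c
    exact ⟨c i0 / 2, by have := hc i0; linarith, fun i => by
      have := hc i0
      have := h0 i
      linarith⟩

end GPx

open GPx in
theorem s_gp : S_GP := by
  classical
  intro d N
  have hn : ∀ s : ℝ, 0 < ‖w d s‖ := fun s => norm_pos_iff.mpr (w_ne d s)
  set v : Fin N → E d := fun i => (‖w d (i : ℝ)‖⁻¹) • w d (i : ℝ) with hv
  refine ⟨v, ?_, ?_⟩
  · intro i
    rw [hv]
    simp only
    rw [norm_smul, norm_inv, norm_norm, inv_mul_cancel₀ (hn _).ne']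
  -- a positive lower bound for every embedding
  have hb : ∀ e : Fin (d + 1) ↪ Fin N, ∃ c : ℝ, 0 < c ∧ ∀ x : Sph d,
      c ≤ ∑ j, |⟪v (e j), (x : E d)⟫| := by
    intro e
    rcases isEmpty_or_nonempty (Sph d) with hE | hE
    · exact ⟨1, one_pos, fun x => (hE.false x).elim⟩
    have hcont : Continuous fun x : Sph d => ∑ j, |⟪v (e j), (x : E d)⟫| := by
      refine continuous_finsetSum _ fun j _ => ?_
      exact (continuous_const.inner continuous_subtype_val).abs
    obtain ⟨x0, -, hx0⟩ := isCompact_univ.exists_isMinOn Set.univ_nonempty hcont.continuousOn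
    refine ⟨∑ j, |⟪v (e j), (x0 : E d)⟫|, ?_, fun x => hx0 (Set.mem_univ x)⟩
    have hx0' : (x0 : E d) ≠ 0 := by
      intro h
      have := x0.2
      rw [mem_sphere_zero_iff_norm, h, norm_zero] at this
      exact zero_ne_one this
    obtain ⟨j, hj⟩ := exists_ne d (fun j => ((e j : ℕ) : ℝ))
      (fun a b hab => e.injective (Fin.ext (Nat.cast_injective hab))) (x0 : E d) hx0'
    refine Finset.sum_pos' (fun i _ => abs_nonneg _) ⟨j, Finset.mem_univ j, ?_⟩
    rw [abs_pos, hv]
    simp only
    rw [real_inner_smul_left]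
    exact mul_ne_zero (inv_ne_zero (hn _).ne') hj
  choose c hc0 hc using hb
  obtain ⟨t, ht0, ht⟩ := pos_bound (fun e : Fin (d + 1) ↪ Fin N => c e / (d + 1))
    (fun e => div_pos (hc0 e) (by positivity))
  refine ⟨t, ht0, ?_⟩
  intro x
  by_contra hlt
  push Not at hlt
  rw [Nat.card_eq_fintype_card] at hlt
  have hle : Fintype.card (Fin (d + 1)) ≤ Fintype.card {i : Fin N // x ∈ slab (v i) t} := by
    rw [Fintype.card_fin]
    exact hlt
  obtain ⟨f⟩ := Function.Embedding.nonempty_of_card_le hle
  set e : Fin (d + 1) ↪ Fin N := f.trans (Function.Embedding.subtype _) with he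
  have h1 := hc e x
  have h2 : ∑ j, |⟪v (e j), (x : E d)⟫| ≤ ∑ _j : Fin (d + 1), t := by
    refine Finset.sum_le_sum fun j _ => ?_
    exact (f j).2
  have h3 : t * (d + 1) < c e := by
    have := ht e
    rwa [lt_div_iff₀ (by positivity)] at this
  rw [Finset.sum_const, Finset.card_univ, Fintype.card_fin, nsmul_eq_mul] at h2
  push_cast at h2
  linarith

end Pool.Agent.R225.BO
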