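import Pool.Agent.R225.BO.A
import Pool.Agent.R225.BO.Defs2

set_option autoImplicit false

open MeasureTheory Filter Topology
open scoped ENNReal RealInnerProductSpace

namespace Pool.Agent.R225.BO

theorem s_marg (hINJ : S_INJ) : S_MARG := by
  intro d n N h A hA
  have h1 := hINJ (Sph d) (unif d) n N (Fin.castLE h) (Fin.castLE_injective h)
  have hm : Measurable (fun (X : Fin N → Sph d) (i : Fin n) => X (Fin.castLE h i)) :=
    measurable_pi_lambda _ (fun i => measurable_pi_apply _)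
  have h2 : law d n A = law d N {X | (fun i : Fin n => X (Fin.castLE h i)) ∈ A} := by
    unfold law
    rw [← h1, Measure.map_apply hm hA]
    rfl
  rw [Measure.real, Measure.real, h2]

theorem rho_cont {d : ℕ} : Continuous (fun p : Sph d × Sph d => rho p.1 p.2) := by
  unfold rho
  refine Continuous.min ?_ ?_
  · exact ((continuous_subtype_val.comp continuous_fst).sub
      (continuous_subtype_val.comp continuous_snd)).norm
  · exact ((continuous_subtype_val.comp continuous_fst).add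
      (continuous_subtype_val.comp continuous_snd)).norm

/-- The main step: slabs of half width `r + 3 α`, `r = 3 α m`. -/
theorem gap_core (hCH : S_CH) (hRHO : S_RHO) (hCAP : S_CAP) (hPATH : S_PATH) (hCLUS : S_CLUS)
    (hREC : S_REC) (hMARG : S_MARG) (hGP : S_GP) (hSLAB : S_SLAB) (hMEAS : S_MEAS) (d : ℕ) :
    ∃ K : ℝ, 0 < K ∧ ∀ ε δ : ℝ, 0 < ε → 0 < δ → ∃ w : ℝ, 0 < w ∧ ∀ (n N m k : ℕ) (α : ℝ), n ≤ N → 1 ≤ m →
      0 < α → 3 * α * (m + 1) ≤ w → 1 ≤ k → ε ≤ (law d n).real {X | (geo α X).Colorable k} →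
      1 - δ - ((N : ℝ) - n) ^ (m + 1) * (K * α ^ d) ^ m ≤
        (law d N).real {X | (geo α X).Colorable (k + 1)} := by
  obtain ⟨K, hK, hcap⟩ := hCAP d
  refine ⟨K * 3 ^ d, by positivity, ?_⟩
  intro ε δ hε hδ
  obtain ⟨M, hM⟩ := exists_nat_gt (d / (2 * ε ^ 2 * δ) : ℝ)
  have hM0 : 0 < M := by
    have h1 : (0 : ℝ) ≤ d / (2 * ε ^ 2 * δ) := by positivity
    exact_mod_cast lt_of_le_of_lt h1 hM
  have hMr : (0 : ℝ) < M := by exact_mod_cast hM0
  have hMδ : (d : ℝ) / (2 * M * ε ^ 2) ≤ δ := by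
    rw [div_le_iff₀ (by positivity)]
    rw [div_lt_iff₀ (by positivity)] at hM
    nlinarith
  obtain ⟨v, hv, t, ht, hcard⟩ := hGP d M
  choose ti hti hmi using fun i => hSLAB d (v i) (hv i)
  have : Nonempty (Fin M) := ⟨⟨0, hM0⟩⟩
  obtain ⟨i0, hi0⟩ := Finite.exists_min ti
  refine ⟨min (1 / 2) (min t (ti i0)), by have := hti i0; positivity, ?_⟩
  intro n N m k α hnN hm1 hα hw hk hp
  have hw1 : 3 * α * (m + 1) ≤ 1 / 2 := le_trans hw (min_le_left _ _)
  have hw2 : 3 * α * (m + 1) ≤ min t (ti i0) := le_trans hw (min_le_right _ _)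
  set r : ℝ := m * (3 * α) with hr
  have hr0 : 0 ≤ r := by positivity
  have hrw : r + 3 * α = 3 * α * (m + 1) := by rw [hr]; ring
  set R : Fin M → Set (Sph d) := fun i => slab (v i) (r + 3 * α) with hR
  have hRm : ∀ i, MeasurableSet (R i) := fun i => (slab_closed _ _).measurableSet
  have key := hCH (Sph d) (unif d) M d R hM0 hRm ?_ ?_ n
    (fun i => {X | (geoR α (R i) X).Colorable k})
    (fun i => (hMEAS d n α (R i) (hRm i) (fun G => G.Colorable k)).1) ?_ ε hε ?_
  · -- transfer to `N` points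
    have hUm : MeasurableSet (⋃ i, {X : Fin n → Sph d | (geoR α (R i) X).Colorable k}) :=
      MeasurableSet.iUnion (fun i => (hMEAS d n α (R i) (hRm i) (fun G => G.Colorable k)).1)
    have hmarg := hMARG d n N hnN _ hUm
    have hpath := hPATH (Sph d) (unif d) (fun x y => rho x y ≤ 3 * α) (K * 3 ^ d * α ^ d)
      ((isClosed_le rho_cont continuous_const).measurableSet) (fun x => by
        refine le_trans (hcap x (3 * α) (by positivity)) (le_of_eq ?_)
        rw [mul_pow]; ring) n N m hnN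
    set P : Set (Fin N → Sph d) := {X | ∃ p : Fin (m + 1) → Fin N, Function.Injective p ∧
      (∀ l, n ≤ (p l : ℕ)) ∧ ∀ l : Fin m, rho (X (p l.castSucc)) (X (p l.succ)) ≤ 3 * α} with hPdef
    have hsub : {X : Fin N → Sph d | (fun i : Fin n => X (Fin.castLE hnN i)) ∈
        ⋃ i, {X : Fin n → Sph d | (geoR α (R i) X).Colorable k}} ⊆
        {X | (geo α X).Colorable (k + 1)} ∪ P := by
      intro X hX
      by_cases hXP : X ∈ P
      · right; exact hXP
      left
      obtain ⟨_, ⟨i, rfl⟩, hi⟩ := hX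
      set Bad : Set (Fin N) := {j | n ≤ (j : ℕ)} with hBad
      refine hREC d N X Bad (v i) α r (hv i) hα hr0 (by nlinarith) ?_ k hk ?_
      · intro a b _ _ hab
        refine hCLUS (Fin N) (badG α Bad X) (fun a b => rho (X a) (X b)) (3 * α) m (by positivity)
          (fun x => (hRHO d (X x) (X x) (X x)).1) (fun x y z => (hRHO d (X x) (X y) (X z)).2.2)
          ?_ ?_ a b hab
        · intro x y hxy
          have h4 : min (rho (X x) (X y)) (rho (X y) (X x)) ≤ 3 * α := hxy.2.2.2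
          rw [(hRHO d (X y) (X x) (X x)).2.1, min_self] at h4
          exact h4
        · rintro ⟨p, hpi, hpa⟩
          apply hXP
          rcases Nat.eq_zero_or_pos m with hm | hm
          · omega
          · refine ⟨p, hpi, ?_, ?_⟩
            · intro l
              rcases Nat.lt_or_ge (l : ℕ) m with hl | hl
              · have h5 := hpa ⟨l, hl⟩
                have h6 : p (Fin.castSucc ⟨l, hl⟩) ∈ Bad := h5.2.1
                exact h6
              · have h5 := hpa ⟨m - 1, by omega⟩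
                have h6 : p (Fin.succ ⟨m - 1, by omega⟩) ∈ Bad := h5.2.2.1
                have h7 : l = Fin.succ ⟨m - 1, by omega⟩ := by
                  apply Fin.ext
                  simp only [Fin.val_succ]
                  omega
                rw [h7]; exact h6
            · intro l
              have h4 : min (rho (X (p l.castSucc)) (X (p l.succ)))
                (rho (X (p l.succ)) (X (p l.castSucc))) ≤ 3 * α := (hpa l).2.2.2
              rw [(hRHO d (X (p l.succ)) (X (p l.castSucc)) (X (p l.succ))).2.1, min_self] at h4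
              exact h4
      · -- colour the good points
        obtain ⟨c⟩ := hi
        have hk0 : 0 < k := hk
        refine ⟨SimpleGraph.Coloring.mk (fun j : Fin N => if h : (j : ℕ) < n then c ⟨j, h⟩ else ⟨0, hk0⟩) ?_⟩
        intro a b hab
        obtain ⟨⟨h1, h2⟩, ⟨h3, h4⟩, h5, h6⟩ := hab
        have ha : (a : ℕ) < n := by
          by_contra h; exact h3 (not_lt.1 h)
        have hb : (b : ℕ) < n := by
          by_contra h; exact h5 (not_lt.1 h)
        simp only [ha, hb, dif_pos]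
        refine c.valid ?_
        refine ⟨⟨fun h => h1 (Fin.ext (by simpa using congrArg Fin.val h)), ?_⟩, ?_, ?_⟩
        · exact h2
        · exact h4
        · exact h6
    have h1 : (law d N).real {X : Fin N → Sph d | (fun i : Fin n => X (Fin.castLE hnN i)) ∈
        ⋃ i, {X : Fin n → Sph d | (geoR α (R i) X).Colorable k}} ≤
        (law d N).real {X | (geo α X).Colorable (k + 1)} + (law d N).real P :=
      le_trans (measureReal_mono hsub (measure_ne_top _ _)) (measureReal_union_le _ _)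
    have h2 : (law d N).real P ≤ ((N : ℝ) - n) ^ (m + 1) * (K * 3 ^ d * α ^ d) ^ m := hpath
    have h3 : 1 - δ ≤ (law d n).real (⋃ i, {X : Fin n → Sph d | (geoR α (R i) X).Colorable k}) := by
      refine le_trans ?_ key
      linarith
    linarith
  · intro i
    refine le_trans (measureReal_mono (slab_mono _ ?_) (measure_ne_top _ _)) (hmi i)
    rw [hrw]
    exact le_trans hw2 (le_trans (min_le_right _ _) (hi0 i))
  · intro x
    refine le_trans ?_ (hcard x)
    refine Nat.card_le_card_of_injective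
      (fun i : {i : Fin M // x ∈ R i} => (⟨i.1, slab_mono _ (by
        rw [hrw]; exact le_trans hw2 (min_le_left _ _)) i.2⟩ :
        {i : Fin M // x ∈ slab (v i) t})) ?_
    intro i j hij
    exact Subtype.ext (congrArg (fun z => z.1) hij)
  · intro i X Y h
    show (geoR α (R i) X).Colorable k ↔ (geoR α (R i) Y).Colorable k
    rw [geoR_local α (R i) X Y h]
  · intro i
    refine le_trans hp ?_
    refine measureReal_mono ?_ (measure_ne_top _ _)
    intro X hX
    have hle : geoR α (R i) X ≤ geo α X := by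
      intro x y hxy
      have h2 : (x ≠ y ∧ Real.pi - α < InnerProductGeometry.angle (X x : E d) (X y : E d)) ∧
        X x ∈ R i ∧ X y ∈ R i := hxy
      exact h2.1
    exact SimpleGraph.Colorable.mono_left hle hX

theorem log_growth (d : ℕ) (B : ℝ) : ∃ n₀ : ℕ, ∀ n ≥ n₀, B * ((Nat.log 2 n : ℝ) + 2) ^ d ≤ n := by
  have h1 : Tendsto (fun n : ℕ => (n : ℝ) ^ d / (2 : ℝ) ^ n) atTop (𝓝 0) :=
    tendsto_pow_const_div_const_pow_of_one_lt d one_lt_two
  have h2 : Tendsto (fun n : ℕ => ((n + 2 : ℕ) : ℝ) ^ d / (2 : ℝ) ^ (n + 2)) atTop (𝓝 0) :=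
    h1.comp (tendsto_add_atTop_nat 2)
  have h3 : Tendsto (fun n : ℕ => (|B| + 1) * 4 * (((n + 2 : ℕ) : ℝ) ^ d / (2 : ℝ) ^ (n + 2)))
      atTop (𝓝 0) := by
    have := h2.const_mul ((|B| + 1) * 4)
    rwa [mul_zero] at this
  obtain ⟨L₀, hL₀⟩ := eventually_atTop.1 (h3.eventually (gt_mem_nhds one_pos))
  refine ⟨2 ^ L₀ + 1, fun n hn => ?_⟩
  have hn0 : n ≠ 0 := by rintro rfl; exact absurd hn (Nat.not_succ_le_zero _)
  have hL : L₀ ≤ Nat.log 2 n := Nat.le_log_of_pow_le (by norm_num) (by omega)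
  have h4 := hL₀ _ hL
  have h5 : (2 : ℝ) ^ (Nat.log 2 n) ≤ n := by exact_mod_cast Nat.pow_log_le_self 2 hn0
  set L := Nat.log 2 n with hLdef
  have h6 : (0 : ℝ) < 2 ^ (L + 2) := by positivity
  have h7 : (|B| + 1) * 4 * ((L + 2 : ℕ) : ℝ) ^ d < 2 ^ (L + 2) := by
    have : (|B| + 1) * 4 * (((L + 2 : ℕ) : ℝ) ^ d / (2 : ℝ) ^ (L + 2)) =
      ((|B| + 1) * 4 * ((L + 2 : ℕ) : ℝ) ^ d) / (2 : ℝ) ^ (L + 2) := by ring
    rw [this, div_lt_one h6] at h4
    exact h4
  have h8 : ((L + 2 : ℕ) : ℝ) = (L : ℝ) + 2 := by push_cast; ring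
  rw [h8] at h7
  have h9 : (2 : ℝ) ^ (L + 2) = 4 * 2 ^ L := by rw [pow_add]; ring
  rw [h9] at h7
  have h10 : B ≤ |B| := le_abs_self B
  have h11 : (0 : ℝ) ≤ ((L : ℝ) + 2) ^ d := by positivity
  nlinarith [mul_le_mul_of_nonneg_right h10 h11]

theorem s_gap (hCH : S_CH) (hRHO : S_RHO) (hCAP : S_CAP) (hPATH : S_PATH) (hCLUS : S_CLUS)
    (hREC : S_REC) (hMARG : S_MARG) (hGP : S_GP) (hSLAB : S_SLAB) (hMEAS : S_MEAS) : S_GAP := by
  intro d C hd hC
  obtain ⟨K, hK, hcore⟩ := gap_core hCH hRHO hCAP hPATH hCLUS hREC hMARG hGP hSLAB hMEAS d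
  refine ⟨min 1 (1 / (4 * K * C)), by positivity, ?_⟩
  intro ε δ hε hδ
  obtain ⟨w, hw, hw2⟩ := hcore ε (δ / 2) hε (by linarith)
  obtain ⟨n₀, hn₀⟩ := log_growth d (3 ^ d * C / w ^ d)
  obtain ⟨n₁, hn₁⟩ := exists_nat_gt (2 / δ)
  refine ⟨max (max n₀ n₁) 1, ?_⟩
  intro n hn N hnN hN α hα hαn k hk hp
  have hn1 : 1 ≤ n := le_trans (le_max_right _ _) hn
  have hnr : (0 : ℝ) < n := by exact_mod_cast hn1
  have hnn0 : n₀ ≤ n := le_trans (le_trans (le_max_left _ _) (le_max_left _ _)) hn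
  have hnn1 : n₁ ≤ n := le_trans (le_trans (le_max_right _ _) (le_max_left _ _)) hn
  have hg := hn₀ n hnn0
  set L := Nat.log 2 n with hL
  have hm := hw2 n N (L + 1) k α hnN (by omega) hα ?_ hk hp
  · refine le_trans ?_ hm
    have hNn : (N : ℝ) - n ≤ min 1 (1 / (4 * K * C)) * n := by linarith
    have hNn0 : (0 : ℝ) ≤ (N : ℝ) - n := by
      have : (n : ℝ) ≤ N := by exact_mod_cast hnN
      linarith
    have hNn1 : (N : ℝ) - n ≤ n := by
      refine le_trans hNn ?_
      have : min 1 (1 / (4 * K * C)) ≤ 1 := min_le_left _ _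
      nlinarith
    have hq : ((N : ℝ) - n) * (K * α ^ d) ≤ 1 / 4 := by
      have h1 : (N : ℝ) - n ≤ 1 / (4 * K * C) * n := by
        refine le_trans hNn ?_
        have : min 1 (1 / (4 * K * C)) ≤ 1 / (4 * K * C) := min_le_right _ _
        nlinarith
      calc ((N : ℝ) - n) * (K * α ^ d) ≤ (1 / (4 * K * C) * n) * (K * α ^ d) :=
            mul_le_mul_of_nonneg_right h1 (by positivity)
        _ = (α ^ d * n) / (4 * C) := by field_simp
        _ ≤ C / (4 * C) := by
            apply div_le_div_of_nonneg_right hαn (by positivity)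
        _ = 1 / 4 := by field_simp
    have hq0 : 0 ≤ ((N : ℝ) - n) * (K * α ^ d) := by positivity
    have h2 : ((N : ℝ) - n) ^ (L + 1 + 1) * (K * α ^ d) ^ (L + 1) =
        ((N : ℝ) - n) * (((N : ℝ) - n) * (K * α ^ d)) ^ (L + 1) := by
      have hpow : ∀ (A B : ℝ) (M : ℕ), A ^ (M + 1) * B ^ M = A * (A * B) ^ M := by
        intro A B M
        rw [mul_pow, pow_succ]; ring
      exact hpow _ _ _
    have h3 : (((N : ℝ) - n) * (K * α ^ d)) ^ (L + 1) ≤ (1 / 4) ^ (L + 1) :=
      pow_le_pow_left₀ hq0 hq _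
    have h4 : ((1 : ℝ) / 4) ^ (L + 1) ≤ 1 / (n : ℝ) ^ 2 := by
      have h5 : (n : ℝ) < 2 ^ (L + 1) := by
        exact_mod_cast Nat.lt_pow_succ_log_self (by norm_num) n
      have h6 : ((1 : ℝ) / 4) ^ (L + 1) = 1 / (2 ^ (L + 1)) ^ 2 := by
        rw [one_div_pow, ← pow_mul, mul_comm (L + 1) 2, pow_mul]
        norm_num
      rw [h6]
      apply one_div_le_one_div_of_le (by positivity)
      exact pow_le_pow_left₀ hnr.le h5.le 2
    have h7 : ((N : ℝ) - n) * (((N : ℝ) - n) * (K * α ^ d)) ^ (L + 1) ≤ n * (1 / (n : ℝ) ^ 2) :=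
      mul_le_mul hNn1 (le_trans h3 h4) (by positivity) hnr.le
    have h8 : (n : ℝ) * (1 / (n : ℝ) ^ 2) = 1 / n := by field_simp
    have h9 : 1 / (n : ℝ) ≤ δ / 2 := by
      have h10 : 2 / δ < n := lt_of_lt_of_le hn₁ (by exact_mod_cast hnn1)
      rw [div_lt_iff₀ hδ] at h10
      rw [div_le_iff₀ hnr]
      linarith
    rw [h2]
    linarith
  · by_contra hcon
    push Not at hcon
    have h1 : w ^ d < (3 * α * (((L + 1 : ℕ) : ℝ) + 1)) ^ d :=
      pow_lt_pow_left₀ hcon hw.le (by omega)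
    have h2 : (3 * α * (((L + 1 : ℕ) : ℝ) + 1)) ^ d = 3 ^ d * α ^ d * ((L : ℝ) + 2) ^ d := by
      rw [mul_pow, mul_pow]; push_cast; ring
    rw [h2] at h1
    have h3 : w ^ d * n < 3 ^ d * α ^ d * ((L : ℝ) + 2) ^ d * n :=
      mul_lt_mul_of_pos_right h1 hnr
    have h4 : 3 ^ d * α ^ d * ((L : ℝ) + 2) ^ d * n ≤ 3 ^ d * C * ((L : ℝ) + 2) ^ d := by
      have h5 : (0 : ℝ) ≤ 3 ^ d * ((L : ℝ) + 2) ^ d := by positivity
      calc 3 ^ d * α ^ d * ((L : ℝ) + 2) ^ d * n = (3 ^ d * ((L : ℝ) + 2) ^ d) * (α ^ d * n) := by ring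
        _ ≤ (3 ^ d * ((L : ℝ) + 2) ^ d) * C := mul_le_mul_of_nonneg_left hαn h5
        _ = _ := by ring
    have hwd : (0 : ℝ) < w ^ d := by positivity
    have h6 : 3 ^ d * C * ((L : ℝ) + 2) ^ d ≤ w ^ d * n := by
      have h7 : 3 ^ d * C / w ^ d * ((L : ℝ) + 2) ^ d = (3 ^ d * C * ((L : ℝ) + 2) ^ d) / w ^ d := by
        ring
      rw [h7, div_le_iff₀ hwd] at hg
      linarith
    linarith

end Pool.Agent.R225.BO
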