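import Pool.Agent.R225.BO.Defs2

/-! # The law of distinct coordinates -/

set_option autoImplicit false

open MeasureTheory Set

namespace Pool.Agent.R225.BO

namespace INJaux

theorem pi_inj {ι κ : Type*} [Fintype ι] [Fintype κ] {α : Type*} [MeasurableSpace α] (μ : Measure α)
    [IsProbabilityMeasure μ] (e : ι → κ) (he : Function.Injective e) :
    (Measure.pi fun _ : κ => μ).map (fun X => X ∘ e) = Measure.pi fun _ : ι => μ := by
  classical
  symm
  refine Measure.pi_eq fun s hs => ?_
  have hm : Measurable (fun X : κ → α => X ∘ e) := by
    refine measurable_pi_lambda _ fun i => ?_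
    exact measurable_pi_apply (e i)
  rw [Measure.map_apply hm (MeasurableSet.univ_pi hs)]
  have h1 : (fun X : κ → α => X ∘ e) ⁻¹' (univ.pi s) =
      univ.pi (fun j => ⋂ i ∈ {i | e i = j}, s i) := by
    ext X
    simp only [Set.mem_preimage, Set.mem_univ_pi, Set.mem_iInter, Function.comp]
    constructor
    · intro h j i hi
      rw [← show e i = j from hi]
      exact h i
    · intro h i
      exact h (e i) i rfl
  rw [h1, Measure.pi_pi]
  have h2 : ∀ j, μ (⋂ i ∈ {i | e i = j}, s i) =
      ∏ i ∈ Finset.univ.filter (fun i => e i = j), μ (s i) := by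
    intro j
    by_cases hj : ∃ i, e i = j
    · obtain ⟨i, rfl⟩ := hj
      have h3 : Finset.univ.filter (fun i' => e i' = e i) = {i} := by
        ext i'
        simp only [Finset.mem_filter, Finset.mem_univ, true_and, Finset.mem_singleton]
        exact he.eq_iff
      rw [h3, Finset.prod_singleton]
      congr 1
      ext x
      simp only [Set.mem_iInter, Set.mem_ofPred_eq]
      constructor
      · intro h
        exact h i rfl
      · intro h i' hi'
        rw [he hi']
        exact h
    · have h3 : Finset.univ.filter (fun i' => e i' = j) = ∅ := by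
        rw [Finset.filter_eq_empty_iff]
        intro i _ hi
        exact hj ⟨i, hi⟩
      rw [h3, Finset.prod_empty]
      have h4 : (⋂ i ∈ {i | e i = j}, s i) = univ := by
        rw [Set.eq_univ_iff_forall]
        intro x
        simp only [Set.mem_iInter]
        intro i hi
        exact absurd ⟨i, hi⟩ hj
      rw [h4, measure_univ]
  simp_rw [h2]
  exact Finset.prod_fiberwise Finset.univ e (fun i => μ (s i))

end INJaux

theorem s_inj : S_INJ := by
  intro Ω _ μ _ n N e he
  exact INJaux.pi_inj μ e he

end Pool.Agent.R225.BO
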