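import Pool.Agent.R225.BO.Defs

/-! # Random Borsuk graphs: measurability -/

set_option autoImplicit false

open MeasureTheory Filter Topology
open scoped ENNReal RealInnerProductSpace

namespace Pool.Agent.R225.BO

theorem meas_graph {Ω : Type*} [MeasurableSpace Ω] {n : ℕ} (f : Ω → SimpleGraph (Fin n))
    (hf : ∀ i j, MeasurableSet {X | (f X).Adj i j}) (P : SimpleGraph (Fin n) → Prop) :
    MeasurableSet {X | P (f X)} := by
  have h1 : {X | P (f X)} = ⋃ H ∈ {H : SimpleGraph (Fin n) | P H}, ⋂ i, ⋂ j,
      {X | (f X).Adj i j ↔ H.Adj i j} := by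
    ext X
    simp only [Set.mem_ofPred_eq, Set.mem_iUnion, Set.mem_iInter, exists_prop]
    constructor
    · intro h
      exact ⟨f X, h, fun i j => Iff.rfl⟩
    · rintro ⟨H, hH, h⟩
      have : f X = H := by
        ext i j
        exact h i j
      rw [this]
      exact hH
  rw [h1]
  refine MeasurableSet.biUnion (Set.to_countable _) fun H _ => ?_
  refine MeasurableSet.iInter fun i => MeasurableSet.iInter fun j => ?_
  by_cases hij : H.Adj i j
  · simp only [hij, iff_true]
    exact hf i j
  · simp only [hij, iff_false]
    exact (hf i j).compl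

theorem meas_angle {d n : ℕ} (i j : Fin n) : Measurable fun X : Fin n → Sph d =>
    InnerProductGeometry.angle (X i : E d) (X j : E d) := by
  have h1 : ∀ i : Fin n, Measurable fun X : Fin n → Sph d => (X i : E d) := fun i =>
    measurable_subtype_coe.comp (measurable_pi_apply i)
  unfold InnerProductGeometry.angle
  exact Real.continuous_arccos.measurable.comp
    (((h1 i).inner (h1 j)).div ((h1 i).norm.mul (h1 j).norm))

theorem meas_geo {d n : ℕ} (α : ℝ) (i j : Fin n) :
    MeasurableSet {X : Fin n → Sph d | (geo α X).Adj i j} := by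
  have h1 : MeasurableSet {X : Fin n → Sph d | Real.pi - α <
      InnerProductGeometry.angle (X i : E d) (X j : E d)} :=
    measurableSet_lt measurable_const (meas_angle i j)
  by_cases hij : i = j
  · have : {X : Fin n → Sph d | (geo α X).Adj i j} = ∅ := by
      ext X
      simp [geo, hij]
    rw [this]
    exact MeasurableSet.empty
  · have : {X : Fin n → Sph d | (geo α X).Adj i j} = {X : Fin n → Sph d | Real.pi - α <
      InnerProductGeometry.angle (X i : E d) (X j : E d)} := by
      ext X
      simp [geo, hij]
    rw [this]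
    exact h1

theorem s_meas : S_MEAS := by
  intro d n α R hR P
  refine ⟨meas_graph (fun X => geoR α R X) (fun i j => ?_) P,
    meas_graph (fun X => geo α X) (fun i j => meas_geo α i j) P⟩
  have h1 : {X : Fin n → Sph d | (geoR α R X).Adj i j} = {X : Fin n → Sph d | (geo α X).Adj i j} ∩
      ((fun X => X i) ⁻¹' R ∩ (fun X => X j) ⁻¹' R) := by
    ext X
    simp [geo, geoR]
  rw [h1]
  exact (meas_geo α i j).inter ((measurable_pi_apply i hR).inter (measurable_pi_apply j hR))

end Pool.Agent.R225.BO
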