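import Pool.Agent.R225.BO.A

set_option autoImplicit false

open MeasureTheory Filter Topology
open scoped ENNReal RealInnerProductSpace

namespace Pool.Agent.R225.BO

theorem chrom_two {V : Type} (G : SimpleGraph V) (k : ℕ) (hk : 1 ≤ k) (h1 : G.Colorable (k + 1))
    (h2 : ¬ G.Colorable (k - 1)) : G.chromaticNumber = k ∨ G.chromaticNumber = k + 1 := by
  have h3 : G.chromaticNumber ≤ ((k + 1 : ℕ) : ℕ∞) := SimpleGraph.chromaticNumber_le_iff_colorable.2 h1
  have h4 : ¬ G.chromaticNumber ≤ ((k - 1 : ℕ) : ℕ∞) := fun h =>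
    h2 (SimpleGraph.chromaticNumber_le_iff_colorable.1 h)
  have h5 : G.chromaticNumber ≠ ⊤ := fun h => by
    rw [h] at h3
    exact absurd h3 (by simp)
  obtain ⟨m, hm⟩ := ENat.ne_top_iff_exists.1 h5
  rw [← hm] at h3 h4 ⊢
  have h6 : m ≤ k + 1 := by exact_mod_cast h3
  have h7 : ¬ m ≤ k - 1 := fun h => h4 (by exact_mod_cast h)
  have h8 : m = k ∨ m = k + 1 := by omega
  rcases h8 with h8 | h8
  · left; rw [h8]
  · right; rw [h8]; push_cast; rfl

/-- The event of two-point concentration at `k`. -/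
def ev (d n : ℕ) (α : ℝ) (k : ℕ) : Set (Fin n → Sph d) :=
  {X | (geo α X).chromaticNumber = k ∨ (geo α X).chromaticNumber = k + 1}

theorem claimA (hA : S_A) (d : ℕ) (δ : ℝ) (hδ : 0 < δ) (hδ1 : δ ≤ 1 / 2) :
    ∃ a : ℝ, 0 < a ∧ ∀ n : ℕ, 1 ≤ n → ∀ α : ℝ, 0 < α → α < a →
      ∃ k : ℕ, 1 - 2 * δ ≤ (law d n).real (ev d n α k) := by
  obtain ⟨a1, ha1, hA1⟩ := hA d δ δ hδ hδ
  refine ⟨a1, ha1, fun n hn1 α hα0 hc => ?_⟩
  have hex : ∃ k, δ ≤ (law d n).real {X | (geo α X).Colorable k} := by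
    refine ⟨n, ?_⟩
    have h1 : {X : Fin n → Sph d | (geo α X).Colorable n} = Set.univ := by
      ext X
      simp only [Set.mem_ofPred_eq, Set.mem_univ, iff_true]
      have h2 := (geo α X).colorable_of_fintype
      rwa [Fintype.card_fin] at h2
    rw [h1, Measure.real, measure_univ, ENNReal.toReal_one]
    linarith
  classical
  obtain ⟨k, hk, hmin⟩ : ∃ k, δ ≤ (law d n).real {X | (geo α X).Colorable k} ∧
      ∀ j < k, ¬ δ ≤ (law d n).real {X | (geo α X).Colorable j} :=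
    ⟨Nat.find hex, Nat.find_spec hex, fun j hj => Nat.find_min hex hj⟩
  have hk1 : 1 ≤ k := by
    by_contra h0
    have h0' : k = 0 := by omega
    rw [h0'] at hk
    have h1 : {X : Fin n → Sph d | (geo α X).Colorable 0} = ∅ := by
      ext X
      simp only [Set.mem_ofPred_eq, Set.mem_empty_iff_false, iff_false]
      intro h2
      have h3 : IsEmpty (Fin n) := by
        obtain ⟨c⟩ := h2
        exact ⟨fun x => (c x).elim0⟩
      exact h3.false ⟨0, hn1⟩
    rw [h1] at hk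
    simp only [measureReal_empty] at hk
    linarith
  refine ⟨k, ?_⟩
  have h1 := hA1 n k α hα0 hc hk1 hk
  have h2 := hmin (k - 1) (by omega)
  push Not at h2
  have h3 : (law d n).real {X | (geo α X).Colorable (k + 1)} ≤
      (law d n).real (ev d n α k) + (law d n).real {X | (geo α X).Colorable (k - 1)} := by
    refine le_trans (measureReal_mono ?_ (measure_ne_top _ _)) (measureReal_union_le _ _)
    intro X hX
    by_cases h4 : (geo α X).Colorable (k - 1)
    · right; exact h4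
    · left; exact chrom_two _ k hk1 hX h4
  linarith

theorem claim (hA : S_A) (hFIN : S_FIN) (hNET : S_NET) (hUP : S_UP) (d : ℕ) (hd : 1 ≤ d) (α₀ : ℝ)
    (hα₀ : 0 < α₀) (hB : ∀ α, 0 < α → α < α₀ → (borsuk d α).chromaticNumber = d + 2)
    (α : ℕ → ℝ) (hα : ∀ n, 0 < α n ∧ α n < α₀) (δ : ℝ) (hδ : 0 < δ) :
    ∃ n₀ : ℕ, ∀ n ≥ n₀, ∃ k : ℕ, 1 - 2 * δ ≤ (law d n).real (ev d n (α n) k) := by
  by_cases hδ1 : 1 / 2 < δ
  · refine ⟨0, fun n _ => ⟨0, ?_⟩⟩
    have : (0 : ℝ) ≤ (law d n).real (ev d n (α n) 0) := measureReal_nonneg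
    linarith
  push Not at hδ1
  obtain ⟨a1, ha1, hA1⟩ := claimA hA d δ hδ hδ1
  set a : ℝ := min a1 (min 1 α₀) with ha
  have ha0 : 0 < a := by positivity
  have haa : a ≤ α₀ := le_trans (min_le_right _ _) (min_le_right _ _)
  have hae1 : a ≤ 1 := le_trans (min_le_right _ _) (min_le_left _ _)
  have hnc : ¬ (borsuk d (a / 2)).Colorable (d + 1) := by
    intro h
    have h1 := SimpleGraph.chromaticNumber_le_iff_colorable.2 h
    rw [hB (a / 2) (by linarith) (by linarith)] at h1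
    have h2 : d + 2 ≤ d + 1 := by exact_mod_cast h1
    omega
  obtain ⟨m, p, hp⟩ := hFIN d a ha0 hae1 hnc
  obtain ⟨n₀, hn₀⟩ := hNET d m p (a / 4) δ (by linarith) hδ
  refine ⟨max n₀ 1, fun n hn => ?_⟩
  have hn1 : 1 ≤ n := le_trans (le_max_right _ _) hn
  have hn0 : n₀ ≤ n := le_trans (le_max_left _ _) hn
  rcases lt_or_ge (α n) a with hc | hc
  · exact hA1 n hn1 (α n) (hα n).1 (lt_of_lt_of_le hc (min_le_left _ _))
  · -- large `α`
    refine ⟨d + 1, ?_⟩
    have h1 := hn₀ n hn0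
    refine le_trans (by linarith) (le_trans h1 (measureReal_mono ?_ (measure_ne_top _ _)))
    intro X hX
    have h2 := hp n X hX (α n) hc
    have h3 : (borsuk d (α n)).Colorable (d + 2) := by
      rw [← SimpleGraph.chromaticNumber_le_iff_colorable, hB (α n) (hα n).1 (hα n).2]
      exact le_of_eq (by push_cast; rfl)
    have h4 := hUP d n (α n) X hd h3
    have h5 := chrom_two (geo (α n) X) (d + 2) (by omega)
      (h4.mono (by omega)) (by
        have : d + 2 - 1 = d + 1 := by omega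
        rw [this]; exact h2)
    have h6 : (geo (α n) X).chromaticNumber ≤ ((d + 2 : ℕ) : ℕ∞) :=
      SimpleGraph.chromaticNumber_le_iff_colorable.2 h4
    right
    rcases h5 with h5 | h5
    · rw [h5]; push_cast; ring
    · exfalso
      rw [h5] at h6
      have h7 : d + 2 + 1 ≤ d + 2 := by exact_mod_cast h6
      omega

theorem choose_k (d : ℕ) (α : ℕ → ℝ)
    (H : ∀ δ : ℝ, 0 < δ → ∃ n₀ : ℕ, ∀ n ≥ n₀, ∃ k : ℕ, 1 - 2 * δ ≤ (law d n).real (ev d n (α n) k)) :
    ∃ k : ℕ → ℕ, Tendsto (fun n => law d n {X | (geo (α n) X).chromaticNumber = k n ∨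
      (geo (α n) X).chromaticNumber = k n + 1}) atTop (𝓝 1) := by
  set q : ℕ → ℕ → ℝ := fun n k => (law d n).real (ev d n (α n) k) with hq
  have hq1 : ∀ n k, q n k ≤ 1 := fun n k => measureReal_le_one
  have hch : ∀ n : ℕ, ∃ k, ∀ k', q n k' ≤ q n k + 1 / ((n : ℝ) + 1) := by
    intro n
    have hb : BddAbove (Set.range (q n)) := ⟨1, by rintro _ ⟨k, rfl⟩; exact hq1 n k⟩
    have h1 : (⨆ k, q n k) - 1 / ((n : ℝ) + 1) < ⨆ k, q n k := by
      have : (0 : ℝ) < 1 / ((n : ℝ) + 1) := by positivity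
      linarith
    obtain ⟨k, hk⟩ := exists_lt_of_lt_ciSup h1
    refine ⟨k, fun k' => ?_⟩
    have := le_ciSup hb k'
    linarith
  choose k hk using hch
  refine ⟨k, ?_⟩
  have hreal : Tendsto (fun n => q n (k n)) atTop (𝓝 1) := by
    rw [Metric.tendsto_atTop]
    intro ε hε
    obtain ⟨n₀, hn₀⟩ := H (ε / 8) (by linarith)
    obtain ⟨n₁, hn₁⟩ := exists_nat_gt (4 / ε)
    refine ⟨max n₀ n₁, fun n hn => ?_⟩
    obtain ⟨k', hk'⟩ := hn₀ n (le_trans (le_max_left _ _) hn)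
    have h1 : 1 / ((n : ℝ) + 1) < ε / 2 := by
      have h2 : (n₁ : ℝ) ≤ n := by exact_mod_cast le_trans (le_max_right _ _) hn
      have h3 : 4 / ε < (n : ℝ) + 1 := by linarith
      rw [div_lt_iff₀ (by positivity)]
      rw [div_lt_iff₀ hε] at h3
      nlinarith
    have h4 := hk n k'
    have h5 := hq1 n (k n)
    have h6 : 1 - 2 * (ε / 8) ≤ q n k' := hk'
    rw [Real.dist_eq, abs_lt]
    constructor <;> linarith
  have h7 : Tendsto (fun n => ENNReal.ofReal (q n (k n))) atTop (𝓝 (ENNReal.ofReal 1)) :=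
    ENNReal.tendsto_ofReal hreal
  rw [ENNReal.ofReal_one] at h7
  refine h7.congr (fun n => ?_)
  exact ofReal_measureReal (measure_ne_top _ _)

theorem s_main (hA : S_A) (hFIN : S_FIN) (hNET : S_NET) (hUP : S_UP) : S_MAIN :=
  fun d hd α₀ hα₀ hB α hα => choose_k d α (claim hA hFIN hNET hUP d hd α₀ hα₀ hB α hα)

/-- The unconditional part: every sequence `α n → 0`. -/
theorem s_zero (hA : S_A) (d : ℕ) (α : ℕ → ℝ) (hα : ∀ n, 0 < α n) (h0 : Tendsto α atTop (𝓝 0)) :
    ∃ k : ℕ → ℕ, Tendsto (fun n => law d n {X | (geo (α n) X).chromaticNumber = k n ∨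
      (geo (α n) X).chromaticNumber = k n + 1}) atTop (𝓝 1) := by
  refine choose_k d α (fun δ hδ => ?_)
  by_cases hδ1 : 1 / 2 < δ
  · refine ⟨0, fun n _ => ⟨0, ?_⟩⟩
    have : (0 : ℝ) ≤ (law d n).real (ev d n (α n) 0) := measureReal_nonneg
    linarith
  push Not at hδ1
  obtain ⟨a, ha, hA1⟩ := claimA hA d δ hδ hδ1
  obtain ⟨n₀, hn₀⟩ := eventually_atTop.1 (h0.eventually (gt_mem_nhds ha))
  exact ⟨max n₀ 1, fun n hn => hA1 n (le_trans (le_max_right _ _) hn) (α n) (hα n)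
    (hn₀ n (le_trans (le_max_left _ _) hn))⟩

end Pool.Agent.R225.BO
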