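import Pool.Agent.R225.BO.Defs

/-! # Random Borsuk graphs: random points form a net -/

set_option autoImplicit false

open MeasureTheory Filter Topology
open scoped ENNReal RealInnerProductSpace

namespace Pool.Agent.R225.BO

namespace NET

lemma mass_ne_zero (d : ℕ) : (volume : Measure (E d)).toSphere Set.univ ≠ 0 := by
  intro h
  have h1 : (volume : Measure (E d)).toSphere = 0 := Measure.measure_univ_eq_zero.mp h
  have h2 := (inferInstance : Measure.IsOpenPosMeasure ((volume : Measure (E d)).toSphere))
  have hne : (Set.univ : Set (Sph d)).Nonempty := by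
    obtain ⟨x, hx⟩ := (NormedSpace.sphere_nonempty (x := (0 : E d)) (r := 1)).2 zero_le_one
    exact ⟨⟨x, hx⟩, trivial⟩
  exact h2.open_pos Set.univ isOpen_univ hne h

instance prob_unif (d : ℕ) : IsProbabilityMeasure (unif d) := by
  constructor
  unfold unif
  rw [Measure.smul_apply, smul_eq_mul]
  exact ENNReal.inv_mul_cancel (mass_ne_zero d) (measure_ne_top _ _)

instance prob_law (d n : ℕ) : IsProbabilityMeasure (law d n) := by
  unfold law; infer_instance

/-- the cap -/
def cap (d : ℕ) (q : Sph d) (b : ℝ) : Set (Sph d) :=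
  {x | InnerProductGeometry.angle (x : E d) (q : E d) < b}

lemma sph_ne (d : ℕ) (x : Sph d) : (x : E d) ≠ 0 := by
  intro h
  have := x.2
  rw [mem_sphere_zero_iff_norm, h, norm_zero] at this
  exact zero_ne_one this

lemma cap_open (d : ℕ) (q : Sph d) (b : ℝ) : IsOpen (cap d q b) := by
  have hc : Continuous fun x : Sph d => InnerProductGeometry.angle (x : E d) (q : E d) := by
    unfold InnerProductGeometry.angle
    refine Real.continuous_arccos.comp ?_
    refine Continuous.div ?_ ?_ ?_
    · exact (continuous_subtype_val.inner continuous_const)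
    · exact (continuous_subtype_val.norm.mul continuous_const)
    · intro x
      exact mul_ne_zero (norm_ne_zero_iff.2 (sph_ne d x)) (norm_ne_zero_iff.2 (sph_ne d q))
  exact isOpen_lt hc continuous_const

lemma cap_pos (d : ℕ) (q : Sph d) (b : ℝ) (hb : 0 < b) : 0 < (unif d).real (cap d q b) := by
  have h2 := (inferInstance : Measure.IsOpenPosMeasure ((volume : Measure (E d)).toSphere))
  have hne : (cap d q b).Nonempty :=
    ⟨q, by
      show InnerProductGeometry.angle (q : E d) (q : E d) < b
      rw [InnerProductGeometry.angle_self (sph_ne d q)]; exact hb⟩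
  have h3 := h2.open_pos _ (cap_open d q b) hne
  rw [Measure.real, ENNReal.toReal_pos_iff]
  refine ⟨?_, measure_lt_top _ _⟩
  unfold unif
  rw [Measure.smul_apply, smul_eq_mul]
  exact ENNReal.mul_pos (ENNReal.inv_ne_zero.2 (measure_ne_top _ _)) h3

lemma miss (d n : ℕ) (q : Sph d) (b : ℝ) :
    (law d n).real {X | ∀ j, X j ∉ cap d q b} = (1 - (unif d).real (cap d q b)) ^ n := by
  have h1 : {X : Fin n → Sph d | ∀ j, X j ∉ cap d q b} =
      Set.pi Set.univ fun _ => (cap d q b)ᶜ := by
    ext X; simp [Set.mem_pi]
  rw [h1]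
  unfold law
  rw [Measure.real, Measure.pi_pi, ENNReal.toReal_prod]
  simp only [Finset.prod_const, Finset.card_univ, Fintype.card_fin]
  congr 1
  exact probReal_compl_eq_one_sub (cap_open d q b).measurableSet

end NET

open NET in
theorem s_net : S_NET := by
  intro d m p b δ hb hδ
  have hlim : Tendsto (fun n : ℕ => ∑ i : Fin m, (1 - (unif d).real (cap d (p i) b)) ^ n)
      atTop (𝓝 0) := by
    have : Tendsto (fun n : ℕ => ∑ i : Fin m, (1 - (unif d).real (cap d (p i) b)) ^ n)
      atTop (𝓝 (∑ i : Fin m, (0 : ℝ))) := by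
      refine tendsto_finsetSum _ fun i _ => ?_
      refine tendsto_pow_atTop_nhds_zero_of_lt_one ?_ ?_
      · have : (unif d).real (cap d (p i) b) ≤ 1 := measureReal_le_one
        linarith
      · have := cap_pos d (p i) b hb
        linarith
    simpa using this
  obtain ⟨n₀, hn₀⟩ := eventually_atTop.1 (hlim.eventually (gt_mem_nhds hδ))
  refine ⟨n₀, fun n hn => ?_⟩
  have h1 := hn₀ n hn
  have hmeas : MeasurableSet {X : Fin n → Sph d |
      ∀ i, ∃ j, InnerProductGeometry.angle (X j : E d) (p i : E d) < b} := by
    have : {X : Fin n → Sph d |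
      ∀ i, ∃ j, InnerProductGeometry.angle (X j : E d) (p i : E d) < b} =
      ⋂ i, ⋃ j, (fun X : Fin n → Sph d => X j) ⁻¹' (cap d (p i) b) := by
      ext X; simp [cap]
    rw [this]
    exact MeasurableSet.iInter fun i => MeasurableSet.iUnion fun j =>
      (measurable_pi_apply j) (cap_open d (p i) b).measurableSet
  have h2 : (law d n).real {X : Fin n → Sph d |
      ∀ i, ∃ j, InnerProductGeometry.angle (X j : E d) (p i : E d) < b}ᶜ ≤
      ∑ i : Fin m, (1 - (unif d).real (cap d (p i) b)) ^ n := by
    calc (law d n).real {X : Fin n → Sph d |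
      ∀ i, ∃ j, InnerProductGeometry.angle (X j : E d) (p i : E d) < b}ᶜ
        ≤ (law d n).real (⋃ i : Fin m, {X | ∀ j, X j ∉ cap d (p i) b}) := by
          refine measureReal_mono ?_ (measure_ne_top _ _)
          intro X hX
          simp only [Set.mem_compl_iff, Set.mem_ofPred_eq, not_forall, not_exists] at hX
          obtain ⟨i, hi⟩ := hX
          exact Set.mem_iUnion.2 ⟨i, fun j => hi j⟩
      _ ≤ ∑ i : Fin m, (law d n).real {X | ∀ j, X j ∉ cap d (p i) b} :=
          measureReal_iUnion_fintype_le _
      _ = _ := Finset.sum_congr rfl fun i _ => miss d n (p i) b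
  rw [probReal_compl_eq_one_sub hmeas] at h2
  linarith

end Pool.Agent.R225.BO
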