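import Pool.Agent.R225.BO.A
import Pool.Agent.R225.BO.Defs2

set_option autoImplicit false

open MeasureTheory Filter Topology
open scoped ENNReal RealInnerProductSpace

namespace Pool.Agent.R225.BO

/-- `χ ≤ k` with high probability below `c n^{-1/d}`. -/
def LowSharp (d k : ℕ) (c : ℝ) : Prop := ∀ ε : ℝ, 0 < ε → ∀ α : ℕ → ℝ, (∀ n, 0 < α n) →
  (∀ n : ℕ, 1 ≤ n → α n < (1 - ε) * c * (n : ℝ) ^ (-(1 / d : ℝ))) →
    Tendsto (fun n => law d n {X | ¬ (geo (α n) X).Colorable k}) atTop (𝓝 0)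

theorem geo_mono {d n : ℕ} {α β : ℝ} (h : α ≤ β) (X : Fin n → Sph d) : geo α X ≤ geo β X := by
  intro x y hxy
  have h1 : x ≠ y ∧ Real.pi - α < InnerProductGeometry.angle (X x : E d) (X y : E d) := hxy
  exact (⟨h1.1, by linarith [h1.2]⟩ :
    x ≠ y ∧ Real.pi - β < InnerProductGeometry.angle (X x : E d) (X y : E d))

theorem compl_real (hMEAS : S_MEAS) (d n k : ℕ) (α : ℝ) :
    (law d n).real {X | ¬ (geo α X).Colorable k} = 1 - (law d n).real {X | (geo α X).Colorable k} := by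
  have hm := (hMEAS d n α Set.univ MeasurableSet.univ (fun G => G.Colorable k)).2
  have h1 : {X : Fin n → Sph d | ¬ (geo α X).Colorable k} = {X | (geo α X).Colorable k}ᶜ := rfl
  rw [h1, probReal_compl_eq_one_sub hm]

theorem s_next (hGAP : S_GAP) (hMEAS : S_MEAS) (d k : ℕ) (c : ℝ) (hd : 1 ≤ d) (hk : 1 ≤ k)
    (hc : 0 < c) (hL : LowSharp d k c) : ∃ η : ℝ, 0 < η ∧ ∀ α : ℕ → ℝ, (∀ n, 0 < α n) →
      (∀ n : ℕ, 1 ≤ n → α n ≤ (1 + η) * c * (n : ℝ) ^ (-(1 / d : ℝ))) →
      Tendsto (fun n => law d n {X | ¬ (geo (α n) X).Colorable (k + 1)}) atTop (𝓝 0) := by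
  have hdr : (0 : ℝ) < d := by exact_mod_cast hd
  obtain ⟨η0, hη0, hgap⟩ := hGAP d ((2 * c) ^ d) hd (by positivity)
  set ρ : ℝ := (1 + η0 / 2) ^ (1 / d : ℝ) with hρ
  have hρ1 : 1 < ρ := Real.one_lt_rpow (by linarith) (by positivity)
  set η : ℝ := min 1 ((ρ - 1) / 2) with hη
  have hη1 : η ≤ 1 := min_le_left _ _
  have hη2 : η ≤ (ρ - 1) / 2 := min_le_right _ _
  have hηp : 0 < η := by
    have : 0 < (ρ - 1) / 2 := by linarith
    positivity
  set ε : ℝ := (ρ - 1) / (4 * ρ) with hε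
  have hεp : 0 < ε := div_pos (by linarith) (by linarith)
  have hε1 : ε < 1 / 4 := by
    rw [hε, div_lt_iff₀ (by linarith)]
    linarith
  have hερ : (1 - ε) * ρ = 1 + 3 * (ρ - 1) / 4 := by
    have : ρ ≠ 0 := by linarith
    rw [hε]; field_simp; ring
  refine ⟨η, hηp, ?_⟩
  intro α hα hαu
  -- the comparison sequence
  set a : ℕ → ℝ := fun n => if n = 0 then 1 else (1 - ε) * c * (n : ℝ) ^ (-(1 / d : ℝ)) with ha
  have hapos : ∀ n, 0 < a n := by
    intro n
    rw [ha]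
    dsimp only
    split_ifs with h
    · exact one_pos
    · have : (0 : ℝ) < n := by exact_mod_cast Nat.pos_of_ne_zero h
      have h2 : 0 < 1 - ε := by linarith
      positivity
  have hT := hL (ε / 2) (by linarith) a hapos (by
    intro n hn
    have h0 : n ≠ 0 := by omega
    have hn' : (0 : ℝ) < n := by exact_mod_cast hn
    rw [ha]
    dsimp only
    rw [if_neg h0]
    have h3 : (0 : ℝ) < (n : ℝ) ^ (-(1 / d : ℝ)) := by positivity
    have h4 : (1 - ε) * c < (1 - ε / 2) * c := by nlinarith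
    exact mul_lt_mul_of_pos_right h4 h3)
  have hT2 : ∀ᶠ n in atTop, law d n {X | ¬ (geo (a n) X).Colorable k} < ENNReal.ofReal (1 / 2) :=
    hT.eventually (gt_mem_nhds (by simp))
  obtain ⟨n₁, hn₁⟩ := eventually_atTop.1 hT2
  have hhalf : ∀ n ≥ n₁, 1 / 2 ≤ (law d n).real {X | (geo (a n) X).Colorable k} := by
    intro n hn
    have h1 := hn₁ n hn
    have h2 : (law d n).real {X | ¬ (geo (a n) X).Colorable k} ≤ 1 / 2 := by
      rw [Measure.real]
      have h3 := ENNReal.toReal_mono ENNReal.ofReal_ne_top h1.le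
      rwa [ENNReal.toReal_ofReal (by norm_num)] at h3
    rw [compl_real hMEAS] at h2
    linarith
  -- real version
  have hreal : Tendsto (fun n => (law d n).real {X | ¬ (geo (α n) X).Colorable (k + 1)}) atTop (𝓝 0) := by
    rw [Metric.tendsto_atTop]
    intro δ hδ
    obtain ⟨n₀, hn₀⟩ := hgap (1 / 2) (δ / 2) (by norm_num) (by linarith)
    obtain ⟨N₁, hN₁⟩ := exists_nat_gt ((1 + η0) * ((n₀ : ℝ) + n₁ + 1) +
      (1 + η0 / 2) * (2 * (1 + η0) / η0))
    refine ⟨N₁, fun N hN => ?_⟩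
    have hNr : (1 + η0) * ((n₀ : ℝ) + n₁ + 1) + (1 + η0 / 2) * (2 * (1 + η0) / η0) < N :=
      lt_of_lt_of_le hN₁ (by exact_mod_cast hN)
    have hA : 0 < (1 + η0 / 2) * (2 * (1 + η0) / η0) := by positivity
    have hB : 0 < (1 + η0) * ((n₀ : ℝ) + n₁ + 1) := by positivity
    have hN0 : (0 : ℝ) < N := by linarith
    have hN1 : 1 ≤ N := by exact_mod_cast hN0
    set n := ⌈(N : ℝ) / (1 + η0)⌉₊ with hn
    have h1 : (N : ℝ) / (1 + η0) ≤ n := Nat.le_ceil _
    have h2 : (N : ℝ) ≤ (1 + η0) * n := by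
      rw [div_le_iff₀ (by linarith)] at h1
      linarith
    have h3 : n ≤ N := by
      refine Nat.ceil_le.2 ?_
      rw [div_le_iff₀ (by linarith)]
      nlinarith
    have h4 : (n : ℝ) < (N : ℝ) / (1 + η0) + 1 := Nat.ceil_lt_add_one (by positivity)
    have h5 : (1 + η0 / 2) * n ≤ N := by
      have h6 : (1 + η0 / 2) * n ≤ (1 + η0 / 2) * ((N : ℝ) / (1 + η0) + 1) :=
        mul_le_mul_of_nonneg_left h4.le (by linarith)
      refine le_trans h6 ?_
      have h7 : (1 + η0 / 2) * (2 * (1 + η0) / η0) ≤ N := by linarith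
      have h8 : (1 + η0 / 2) ≤ N * (η0 / (2 * (1 + η0))) := by
        have h9 : (1 + η0 / 2) = (1 + η0 / 2) * (2 * (1 + η0) / η0) * (η0 / (2 * (1 + η0))) := by
          field_simp
        rw [h9]
        exact mul_le_mul_of_nonneg_right h7 (by positivity)
      have h10 : (1 + η0 / 2) * ((N : ℝ) / (1 + η0) + 1) =
          N * ((1 + η0 / 2) / (1 + η0)) + (1 + η0 / 2) := by ring
      have h11 : (1 + η0 / 2) / (1 + η0) + η0 / (2 * (1 + η0)) = 1 := by field_simp; ring
      rw [h10]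
      nlinarith
    have hbig : ((n₀ : ℝ) + n₁ + 1) ≤ n := by
      refine le_trans ?_ h1
      rw [le_div_iff₀ (by linarith)]
      linarith
    have hnn0 : n₀ ≤ n := by
      have : (n₀ : ℝ) ≤ n := by
        have : (0 : ℝ) ≤ n₁ := Nat.cast_nonneg _
        linarith
      exact_mod_cast this
    have hnn1 : n₁ ≤ n := by
      have : (n₁ : ℝ) ≤ n := by
        have : (0 : ℝ) ≤ n₀ := Nat.cast_nonneg _
        linarith
      exact_mod_cast this
    have hn1 : (0 : ℝ) < n := by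
      have : (0 : ℝ) ≤ n₁ := Nat.cast_nonneg _
      have : (0 : ℝ) ≤ n₀ := Nat.cast_nonneg _
      linarith
    have hne : n ≠ 0 := by
      intro h; rw [h] at hn1; simp at hn1
    have hexp : -(1 / d : ℝ) ≤ 0 := by
      have : (0 : ℝ) < 1 / d := by positivity
      linarith
    -- α N ≤ a n
    have hle : α N ≤ a n := by
      refine le_trans (hαu N hN1) ?_
      rw [ha]
      dsimp only
      rw [if_neg hne]
      have h6 : (N : ℝ) ^ (-(1 / d : ℝ)) ≤ ((1 + η0 / 2) * n) ^ (-(1 / d : ℝ)) :=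
        Real.rpow_le_rpow_of_nonpos (by positivity) h5 hexp
      rw [Real.mul_rpow (by linarith) hn1.le,
        Real.rpow_neg (show (0 : ℝ) ≤ 1 + η0 / 2 by linarith) (1 / d : ℝ)] at h6
      have h7 : (1 + η) * c * (N : ℝ) ^ (-(1 / d : ℝ)) ≤
          (1 + η) * c * (ρ⁻¹ * (n : ℝ) ^ (-(1 / d : ℝ))) :=
        mul_le_mul_of_nonneg_left h6 (by positivity)
      refine le_trans h7 ?_
      have h8 : (0 : ℝ) < (n : ℝ) ^ (-(1 / d : ℝ)) := by positivity
      have h9 : (1 + η) * ρ⁻¹ ≤ 1 - ε := by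
        rw [← div_eq_mul_inv, div_le_iff₀ (by linarith), hερ]
        linarith
      have h10 : (1 + η) * c * (ρ⁻¹ * (n : ℝ) ^ (-(1 / d : ℝ))) =
          ((1 + η) * ρ⁻¹) * (c * (n : ℝ) ^ (-(1 / d : ℝ))) := by ring
      rw [h10, mul_assoc (1 - ε)]
      exact mul_le_mul_of_nonneg_right h9 (by positivity)
    -- α^d n ≤ C
    have hC : α N ^ d * n ≤ (2 * c) ^ d := by
      have h6 : α N ^ d ≤ ((1 + η) * c * (N : ℝ) ^ (-(1 / d : ℝ))) ^ d :=
        pow_le_pow_left₀ (hα N).le (hαu N hN1) d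
      have h7 : ((N : ℝ) ^ (-(1 / d : ℝ))) ^ d = (N : ℝ)⁻¹ := by
        rw [← Real.rpow_natCast, ← Real.rpow_mul hN0.le]
        have : (-(1 / d : ℝ)) * (d : ℝ) = -1 := by field_simp
        rw [this, Real.rpow_neg_one]
      rw [mul_pow, h7] at h6
      have h8 : ((1 + η) * c) ^ d ≤ (2 * c) ^ d :=
        pow_le_pow_left₀ (by positivity) (by nlinarith) d
      have h9 : (n : ℝ) ≤ N := by exact_mod_cast h3
      calc α N ^ d * n ≤ (((1 + η) * c) ^ d * (N : ℝ)⁻¹) * n :=
            mul_le_mul_of_nonneg_right h6 hn1.le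
        _ ≤ (((1 + η) * c) ^ d * (N : ℝ)⁻¹) * N := mul_le_mul_of_nonneg_left h9 (by positivity)
        _ = ((1 + η) * c) ^ d := by field_simp
        _ ≤ (2 * c) ^ d := h8
    have hprob : 1 / 2 ≤ (law d n).real {X | (geo (α N) X).Colorable k} := by
      refine le_trans (hhalf n hnn1) (measureReal_mono ?_ (measure_ne_top _ _))
      intro X hX
      exact SimpleGraph.Colorable.mono_left (geo_mono hle X) hX
    have hfin := hn₀ n hnn0 N h3 h2 (α N) (hα N) hC k hk hprob
    rw [Real.dist_eq, sub_zero, abs_of_nonneg measureReal_nonneg, compl_real hMEAS]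
    linarith
  have h7 := ENNReal.tendsto_ofReal hreal
  rw [ENNReal.ofReal_zero] at h7
  refine h7.congr (fun n => ?_)
  exact ofReal_measureReal (measure_ne_top _ _)

/-- Sharp threshold constants are strictly increasing. -/
theorem s_ord' (hGAP : S_GAP) (hMEAS : S_MEAS) : S_ORD := by
  intro d k c c' hd hk hc hc' h1 h2
  have hL : LowSharp d k c := fun ε hε α hα h => (h1 ε hε α hα).2 h
  obtain ⟨η, hη, hη2⟩ := s_next hGAP hMEAS d k c hd hk hc hL
  by_contra hcon
  push Not at hcon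
  set b : ℕ → ℝ := fun n => if n = 0 then 1 else (1 + η) * c * (n : ℝ) ^ (-(1 / d : ℝ)) with hb
  have hbpos : ∀ n, 0 < b n := by
    intro n
    rw [hb]
    dsimp only
    split_ifs with h
    · exact one_pos
    · have : (0 : ℝ) < n := by exact_mod_cast Nat.pos_of_ne_zero h
      positivity
  have t0 := hη2 b hbpos (by
    intro n hn
    have h0 : n ≠ 0 := by omega
    rw [hb]
    dsimp only
    rw [if_neg h0])
  have t1 := (h2 (η / 2) (by linarith) b hbpos).1 (by
    intro n hn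
    have h0 : n ≠ 0 := by omega
    have hn' : (0 : ℝ) < n := by exact_mod_cast hn
    rw [hb]
    dsimp only
    rw [if_neg h0]
    have h3 : (0 : ℝ) < (n : ℝ) ^ (-(1 / d : ℝ)) := by positivity
    have h4 : (1 + η / 2) * c' < (1 + η) * c := by nlinarith
    exact mul_lt_mul_of_pos_right h4 h3)
  exact zero_ne_one (tendsto_nhds_unique t0 t1)

end Pool.Agent.R225.BO
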