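import Pool.Agent.R225.BO.Defs2
import Pool.Agent.R225.BO.A

/-! # Random Borsuk graphs: strict order of the threshold constants -/

set_option autoImplicit false

open MeasureTheory Filter Topology
open scoped ENNReal RealInnerProductSpace

namespace Pool.Agent.R225.BO

namespace ORD

/-- the power `n^(-1/d)` -/
noncomputable def pw (d : ℕ) (x : ℝ) : ℝ := x ^ (-(1 / d : ℝ))

theorem pw_pos (d : ℕ) {x : ℝ} (hx : 0 < x) : 0 < pw d x := Real.rpow_pos_of_pos hx _

theorem pw_pow (d : ℕ) (hd : 1 ≤ d) {x : ℝ} (hx : 0 < x) : pw d x ^ d * x = 1 := by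
  have hd' : (d : ℝ) ≠ 0 := by positivity
  unfold pw
  rw [← Real.rpow_natCast, ← Real.rpow_mul hx.le]
  have : -(1 / d : ℝ) * (d : ℝ) = -1 := by field_simp
  rw [this, Real.rpow_neg_one]
  field_simp

theorem pw_mul (d : ℕ) {x t : ℝ} (hx : 0 < x) (ht : 0 < t) : pw d x = t ^ (1 / d : ℝ) * pw d (t * x) := by
  unfold pw
  rw [Real.mul_rpow ht.le hx.le, ← mul_assoc, ← Real.rpow_add ht]
  simp

theorem pw_anti (d : ℕ) {x y : ℝ} (hx : 0 < x) (hxy : x ≤ y) : pw d y ≤ pw d x := by
  unfold pw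
  apply Real.rpow_le_rpow_of_nonpos hx hxy
  rw [neg_nonpos]
  positivity

end ORD

open ORD

theorem s_ord : S_GAP → S_MEAS → S_ORD := by
  intro hGAP hMEAS d k c c' hd hk hc hc' hs hs'
  by_contra hcc
  have hcc : c' ≤ c := not_lt.1 hcc
  have hd0 : (0 : ℝ) < d := by exact_mod_cast hd
  obtain ⟨η, hη, hgap⟩ := hGAP d (c ^ d) hd (by positivity)
  -- the constant θ
  have h1θ : 1 < (1 + η / 2) ^ (1 / d : ℝ) :=
    Real.one_lt_rpow (by linarith) (by positivity)
  generalize hθ : (1 + η / 2) ^ (1 / d : ℝ) = θ at h1θ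
  -- the constant ε
  obtain ⟨ε, hε0, hε1, hεθ⟩ : ∃ ε : ℝ, 0 < ε ∧ ε < 1 / 2 ∧ 1 + ε < (1 - ε) * θ := by
    refine ⟨(θ - 1) / (2 * (θ + 1)), ?_, ?_, ?_⟩
    · apply div_pos <;> linarith
    · rw [div_lt_div_iff₀ (by linarith) (by norm_num)]
      linarith
    · have : (θ - 1) / (2 * (θ + 1)) * (θ + 1) = (θ - 1) / 2 := by
        field_simp
      nlinarith
  -- the sequence a
  let a : ℕ → ℝ := fun n => if n = 0 then 1 else (1 - ε) * c * pw d n
  have ha_pos : ∀ n, 0 < a n := by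
    intro n
    by_cases hn : n = 0
    · simp [a, hn]
    · have : (0 : ℝ) < n := by exact_mod_cast Nat.pos_of_ne_zero hn
      simp only [a, if_neg hn]
      have := pw_pos d this
      have h2 : 0 < 1 - ε := by linarith
      positivity
  have ha_val : ∀ n, 1 ≤ n → a n = (1 - ε) * c * pw d n := by
    intro n hn
    simp only [a, if_neg (by omega : ¬ n = 0)]
  -- the lower part of the threshold of k
  have hlow := (hs (ε / 2) (by linarith) a ha_pos).2 (by
    intro n hn
    rw [ha_val n hn]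
    have h0 : (0 : ℝ) < n := by exact_mod_cast hn
    have h1 := pw_pos d h0
    change (1 - ε) * c * pw d n < (1 - ε / 2) * c * pw d n
    apply mul_lt_mul_of_pos_right _ h1
    apply mul_lt_mul_of_pos_right _ hc
    linarith)
  -- complements
  have hcompl : ∀ (n j : ℕ) (α : ℝ), (law d n).real {X | (geo α X).Colorable j} =
      1 - (law d n).real {X | ¬ (geo α X).Colorable j} := by
    intro n j α
    have hm := (hMEAS d n α Set.univ MeasurableSet.univ (fun G => ¬ G.Colorable j)).2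
    have h2 := probReal_compl_eq_one_sub (μ := law d n) hm
    rw [← h2]
    congr 1
    ext X
    simp
  have hlow2 : ∀ᶠ n in atTop, (1 : ℝ) / 2 ≤ (law d n).real {X | (geo (a n) X).Colorable k} := by
    have h1 : Tendsto (fun n => (law d n).real {X | ¬ (geo (a n) X).Colorable k}) atTop (𝓝 0) := by
      have h2 : Tendsto (fun n => (law d n).real {X | ¬ (geo (a n) X).Colorable k})
          atTop (𝓝 (0 : ℝ≥0∞).toReal) := (ENNReal.tendsto_toReal (ENNReal.zero_ne_top)).comp hlow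
      rw [ENNReal.toReal_zero] at h2
      exact h2
    have h3 : ∀ᶠ n in atTop, (law d n).real {X | ¬ (geo (a n) X).Colorable k} < 1 / 2 :=
      h1.eventually_lt_const (by norm_num)
    filter_upwards [h3] with n hn
    rw [hcompl]
    linarith
  obtain ⟨n₁, hn₁⟩ := eventually_atTop.1 hlow2
  obtain ⟨n₀, hn₀⟩ := hgap (1 / 2) (1 / 4) (by norm_num) (by norm_num)
  -- the numbers n(N)
  let ν : ℕ → ℕ := fun N => ⌈(N : ℝ) / (1 + η)⌉₊
  have hν1 : ∀ N, ν N ≤ N := by
    intro N
    apply Nat.ceil_le.2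
    apply div_le_self (Nat.cast_nonneg N)
    linarith
  have hν2 : ∀ N : ℕ, (N : ℝ) ≤ (1 + η) * (ν N : ℝ) := by
    intro N
    have := Nat.le_ceil ((N : ℝ) / (1 + η))
    rw [div_le_iff₀ (by linarith)] at this
    rw [mul_comm]
    exact this
  have hν3 : ∀ N : ℕ, (ν N : ℝ) < (N : ℝ) / (1 + η) + 1 := fun N =>
    Nat.ceil_lt_add_one (by positivity)
  -- eventually everything holds
  obtain ⟨N₁, hN₁⟩ : ∃ N₁ : ℕ, ∀ N ≥ N₁, n₀ ≤ ν N ∧ n₁ ≤ ν N ∧ 1 ≤ ν N ∧
      (1 + η / 2) * (ν N : ℝ) ≤ N := by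
    obtain ⟨N₂, hN₂⟩ := exists_nat_ge ((1 + η) * (n₀ + n₁ + 1))
    obtain ⟨N₃, hN₃⟩ := exists_nat_ge ((1 + η / 2) * (1 + η) * (2 / η))
    refine ⟨N₂ + N₃, ?_⟩
    intro N hN
    have hN' : (N₂ : ℝ) + N₃ ≤ N := by exact_mod_cast hN
    have h4 : (n₀ : ℝ) + n₁ + 1 ≤ ν N := by
      have h5 := hν2 N
      have h6 : (0 : ℝ) ≤ N₃ := Nat.cast_nonneg _
      have h7 : (1 + η) * ((n₀ : ℝ) + n₁ + 1) ≤ (1 + η) * ν N := by linarith
      exact le_of_mul_le_mul_left h7 (by linarith)
    have h4' : n₀ + n₁ + 1 ≤ ν N := by exact_mod_cast h4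
    refine ⟨by omega, by omega, by omega, ?_⟩
    have h8 : (N₃ : ℝ) ≤ N := by
      have : (0 : ℝ) ≤ N₂ := Nat.cast_nonneg _
      linarith
    have h9 : (1 + η / 2) * (1 + η) * (2 / η) ≤ N := hN₃.trans h8
    have h10 := hν3 N
    have h11 : (1 + η / 2) * (ν N : ℝ) ≤ (1 + η / 2) * ((N : ℝ) / (1 + η) + 1) := by
      apply mul_le_mul_of_nonneg_left h10.le
      linarith
    refine h11.trans ?_
    have h12 : (1 + η / 2) * (1 + η) * 2 ≤ N * η := by
      rw [mul_div_assoc', div_le_iff₀ hη] at h9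
      exact h9
    have h13 : (1 + η / 2) * ((N : ℝ) / (1 + η) + 1) =
        ((1 + η / 2) * (N + (1 + η))) / (1 + η) := by
      field_simp
    rw [h13, div_le_iff₀ (by linarith)]
    nlinarith
  -- colouring with `k + 1` colours
  have hcol : ∀ N ≥ N₁, (3 : ℝ) / 4 ≤ (law d N).real {X | (geo (a (ν N)) X).Colorable (k + 1)} := by
    intro N hN
    obtain ⟨h1, h2, h3, h4⟩ := hN₁ N hN
    have h5 := hn₀ (ν N) h1 N (hν1 N) (hν2 N) (a (ν N)) (ha_pos _) ?_ k hk (hn₁ (ν N) h2)
    · linarith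
    · have h0 : (0 : ℝ) < (ν N : ℝ) := by exact_mod_cast h3
      rw [ha_val _ h3, mul_pow, mul_pow]
      have h6 := pw_pow d hd h0
      have h7 : (1 - ε) ^ d ≤ 1 := pow_le_one₀ (by linarith) (by linarith)
      calc (1 - ε) ^ d * c ^ d * pw d (ν N) ^ d * (ν N : ℝ)
          = (1 - ε) ^ d * c ^ d * (pw d (ν N) ^ d * (ν N : ℝ)) := by ring
        _ = (1 - ε) ^ d * c ^ d := by rw [h6, mul_one]
        _ ≤ 1 * c ^ d := mul_le_mul_of_nonneg_right h7 (by positivity)
        _ = c ^ d := one_mul _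
  -- the sequence b
  let b : ℕ → ℝ := fun N => if N₁ ≤ N then a (ν N) else (1 + 2 * ε) * c' * pw d N + 1
  have hpw0 : ∀ n : ℕ, 0 ≤ pw d n := fun n => Real.rpow_nonneg (Nat.cast_nonneg n) _
  have hb_pos : ∀ N, 0 < b N := by
    intro N
    by_cases h : N₁ ≤ N
    · simp only [b, if_pos h]
      exact ha_pos _
    · simp only [b, if_neg h]
      have := hpw0 N
      positivity
  have hup := (hs' ε hε0 b hb_pos).1 (by
    intro N hN1
    change (1 + ε) * c' * pw d N < b N
    have h0 : (0 : ℝ) < N := by exact_mod_cast hN1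
    have hp := pw_pos d h0
    by_cases h : N₁ ≤ N
    · simp only [b, if_pos h]
      obtain ⟨h1, h2, h3, h4⟩ := hN₁ N h
      rw [ha_val _ h3]
      have h5 : (0 : ℝ) < (ν N : ℝ) := by exact_mod_cast h3
      have h6 : pw d (ν N) = θ * pw d ((1 + η / 2) * ν N) := by
        rw [pw_mul d h5 (by linarith : (0 : ℝ) < 1 + η / 2), hθ]
      have h7 : pw d N ≤ pw d ((1 + η / 2) * ν N) := pw_anti d (by positivity) h4
      rw [h6]
      have h1ε : 0 < 1 - ε := by linarith
      calc (1 + ε) * c' * pw d N ≤ (1 + ε) * c * pw d N := by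
            apply mul_le_mul_of_nonneg_right _ hp.le
            apply mul_le_mul_of_nonneg_left hcc
            linarith
        _ < (1 - ε) * θ * c * pw d N := by
            apply mul_lt_mul_of_pos_right _ hp
            apply mul_lt_mul_of_pos_right hεθ hc
        _ ≤ (1 - ε) * θ * c * pw d ((1 + η / 2) * ν N) := by
            apply mul_le_mul_of_nonneg_left h7
            have : 0 < θ := by linarith
            positivity
        _ = (1 - ε) * c * (θ * pw d ((1 + η / 2) * ν N)) := by ring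
    · simp only [b, if_neg h]
      have : (1 + ε) * c' * pw d N ≤ (1 + 2 * ε) * c' * pw d N := by
        apply mul_le_mul_of_nonneg_right _ hp.le
        apply mul_le_mul_of_nonneg_right _ hc'.le
        linarith
      linarith)
  have hup2 : Tendsto (fun n => (law d n).real {X | ¬ (geo (b n) X).Colorable (k + 1)})
      atTop (𝓝 1) := by
    have h2 : Tendsto (fun n => (law d n).real {X | ¬ (geo (b n) X).Colorable (k + 1)})
        atTop (𝓝 (1 : ℝ≥0∞).toReal) := (ENNReal.tendsto_toReal (ENNReal.one_ne_top)).comp hup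
    rw [ENNReal.toReal_one] at h2
    exact h2
  have hev : ∀ᶠ n in atTop, (1 : ℝ) / 2 <
      (law d n).real {X | ¬ (geo (b n) X).Colorable (k + 1)} :=
    hup2.eventually_const_lt (by norm_num)
  obtain ⟨M, hM⟩ := eventually_atTop.1 hev
  have h1 := hM (max M N₁) (le_max_left _ _)
  have h2 := hcol (max M N₁) (le_max_right _ _)
  have h3 : b (max M N₁) = a (ν (max M N₁)) := by
    simp only [b, if_pos (le_max_right M N₁)]
  rw [h3] at h1
  rw [hcompl] at h2
  linarith

end Pool.Agent.R225.BO
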