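import Pool.Agent.R225.BO.Defs2

/-! # BG-PATH: first moment bound for paths of distinct indices -/

set_option autoImplicit false

open MeasureTheory Filter Topology
open scoped ENNReal

namespace Pool.Agent.R225.BO

theorem s_path : S_INJ → S_CHAIN → S_PATH := by
  classical
  intro hI hC Ω _ μ _ r q hr hq n N m hnN
  have hne : Nonempty Ω := μ.nonempty_of_neZero
  obtain ⟨x0⟩ := hne
  have hq0 : 0 ≤ q := measureReal_nonneg.trans (hq x0)
  set ν : Measure (Fin N → Ω) := Measure.pi fun _ : Fin N => μ with hν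
  set P : Finset (Fin (m + 1) → Fin N) :=
    Finset.univ.filter fun p => Function.Injective p ∧ ∀ l, n ≤ (p l : ℕ) with hP
  have hset : {X : Fin N → Ω | ∃ p : Fin (m + 1) → Fin N, Function.Injective p ∧
      (∀ l, n ≤ (p l : ℕ)) ∧ ∀ l : Fin m, r (X (p l.castSucc)) (X (p l.succ))} =
      ⋃ p ∈ P, {X : Fin N → Ω | ∀ l : Fin m, r (X (p l.castSucc)) (X (p l.succ))} := by
    ext X
    simp only [Set.mem_ofPred_eq, Set.mem_iUnion, hP, Finset.mem_filter, Finset.mem_univ, true_and,
      exists_prop]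
    constructor
    · rintro ⟨p, h1, h2, h3⟩
      exact ⟨p, ⟨h1, h2⟩, h3⟩
    · rintro ⟨p, ⟨h1, h2⟩, h3⟩
      exact ⟨p, h1, h2, h3⟩
  have hone : ∀ p ∈ P,
      ν.real {X : Fin N → Ω | ∀ l : Fin m, r (X (p l.castSucc)) (X (p l.succ))} ≤ q ^ m := by
    intro p hp
    have hinj : Function.Injective p := (Finset.mem_filter.1 hp).2.1
    have hm : Measurable fun (X : Fin N → Ω) (i : Fin (m + 1)) => X (p i) :=
      measurable_pi_lambda _ fun i => measurable_pi_apply (p i)
    have hmS : MeasurableSet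
        {Y : Fin (m + 1) → Ω | ∀ l : Fin m, r (Y l.castSucc) (Y l.succ)} := by
      have : {Y : Fin (m + 1) → Ω | ∀ l : Fin m, r (Y l.castSucc) (Y l.succ)} =
          ⋂ l : Fin m, (fun Y : Fin (m + 1) → Ω => (Y l.castSucc, Y l.succ)) ⁻¹'
            {p : Ω × Ω | r p.1 p.2} := by
        ext Y
        simp
      rw [this]
      exact MeasurableSet.iInter fun l =>
        ((measurable_pi_apply l.castSucc).prodMk (measurable_pi_apply l.succ)) hr
    have h := hC Ω μ r q hr hq m
    rw [← hI Ω μ (m + 1) N p hinj, map_measureReal_apply hm hmS] at h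
    exact h
  have hcard : (P.card : ℝ) ≤ ((N : ℝ) - n) ^ (m + 1) := by
    have h1 : P ⊆ Fintype.piFinset fun _ : Fin (m + 1) =>
        Finset.univ.filter fun i : Fin N => n ≤ (i : ℕ) := by
      intro p hp
      rw [Fintype.mem_piFinset]
      intro l
      exact Finset.mem_filter.2 ⟨Finset.mem_univ _, (Finset.mem_filter.1 hp).2.2 l⟩
    have h2 : (Finset.univ.filter fun i : Fin N => n ≤ (i : ℕ)).card ≤ N - n := by
      have h3 := Finset.card_le_card_of_injOn (s := Finset.univ.filter fun i : Fin N => n ≤ (i : ℕ))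
        (t := Finset.Ico n N) (fun i : Fin N => (i : ℕ))
        (fun i hi => by
          have := (Finset.mem_filter.1 hi).2
          exact Finset.mem_coe.2 (Finset.mem_Ico.2 ⟨this, i.2⟩))
        (fun i _ j _ hij => Fin.ext hij)
      rwa [Nat.card_Ico] at h3
    have h4 := Finset.card_le_card h1
    rw [Fintype.card_piFinset, Finset.prod_const, Finset.card_univ, Fintype.card_fin] at h4
    have h5 : P.card ≤ (N - n) ^ (m + 1) := h4.trans (Nat.pow_le_pow_left h2 _)
    calc (P.card : ℝ) ≤ (((N - n) ^ (m + 1) : ℕ) : ℝ) := by exact_mod_cast h5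
      _ = ((N : ℝ) - n) ^ (m + 1) := by rw [Nat.cast_pow, Nat.cast_sub hnN]
  rw [hset]
  calc ν.real (⋃ p ∈ P, {X : Fin N → Ω | ∀ l : Fin m, r (X (p l.castSucc)) (X (p l.succ))})
      ≤ ∑ p ∈ P, ν.real {X : Fin N → Ω | ∀ l : Fin m, r (X (p l.castSucc)) (X (p l.succ))} :=
        measureReal_biUnion_finset_le _ _
    _ ≤ ∑ _p ∈ P, q ^ m := Finset.sum_le_sum hone
    _ = P.card * q ^ m := by rw [Finset.sum_const, nsmul_eq_mul]
    _ ≤ ((N : ℝ) - n) ^ (m + 1) * q ^ m := mul_le_mul_of_nonneg_right hcard (pow_nonneg hq0 m)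

end Pool.Agent.R225.BO
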