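import Pool.Agent.R225.BO.Defs2

/-! # Random Borsuk graphs: the recolouring lemma -/

set_option autoImplicit false

open MeasureTheory Filter Topology
open scoped ENNReal RealInnerProductSpace

namespace Pool.Agent.R225.BO

namespace RecAux

variable {d N : ℕ}

theorem unit (x : Sph d) : ‖(x : E d)‖ = 1 := mem_sphere_zero_iff_norm.1 x.2

theorem norm_add_lt {x y : Sph d} {α : ℝ}
    (hα : Real.pi - α < InnerProductGeometry.angle (x : E d) (y : E d)) :
    ‖(x : E d) + (y : E d)‖ < α := by
  have hx := unit x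
  have hy := unit y
  obtain ⟨θ, hθ⟩ : ∃ θ : ℝ, θ = Real.pi - InnerProductGeometry.angle (x : E d) (y : E d) := ⟨_, rfl⟩
  have hθ0 : 0 ≤ θ := by
    rw [hθ]
    linarith [InnerProductGeometry.angle_le_pi (x : E d) (y : E d)]
  have hθα : θ < α := by linarith
  have h1 : ⟪(x : E d), (y : E d)⟫ = -Real.cos θ := by
    rw [hθ, Real.cos_pi_sub, neg_neg,
      ← InnerProductGeometry.cos_angle_mul_norm_mul_norm (x : E d) (y : E d), hx, hy]
    ring
  have h2 : ‖(x : E d) + (y : E d)‖ ^ 2 ≤ θ ^ 2 := by
    rw [norm_add_sq_real, h1, hx, hy]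
    linarith [Real.one_sub_sq_div_two_le_cos (x := θ)]
  have h3 : ‖(x : E d) + (y : E d)‖ ≤ θ :=
    (pow_le_pow_iff_left₀ (norm_nonneg _) hθ0 two_ne_zero).1 h2
  linarith

theorem rho_comm (x y : Sph d) : rho x y = rho y x := by
  unfold rho
  rw [norm_sub_rev, add_comm (x : E d) (y : E d)]

theorem rho_self (x : Sph d) : rho x x = 0 := by
  unfold rho
  rw [sub_self, norm_zero]
  exact min_eq_left (norm_nonneg _)

theorem rho_le_add (x y : Sph d) : rho x y ≤ ‖(x : E d) + (y : E d)‖ := min_le_right _ _

theorem rho_tri (x y z : Sph d) : rho x z ≤ rho x y + rho y z := by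
  have t1 : ‖(x : E d) - z‖ ≤ ‖(x : E d) - y‖ + ‖(y : E d) - z‖ := by
    have e : (x : E d) - z = (x - y) + (y - z) := by abel
    rw [e]
    exact norm_add_le _ _
  have t2 : ‖(x : E d) + z‖ ≤ ‖(x : E d) - y‖ + ‖(y : E d) + z‖ := by
    have e : (x : E d) + z = (x - y) + (y + z) := by abel
    rw [e]
    exact norm_add_le _ _
  have t3 : ‖(x : E d) + z‖ ≤ ‖(x : E d) + y‖ + ‖(y : E d) - z‖ := by
    have e : (x : E d) + z = (x + y) - (y - z) := by abel
    rw [e]
    exact norm_sub_le _ _
  have t4 : ‖(x : E d) - z‖ ≤ ‖(x : E d) + y‖ + ‖(y : E d) + z‖ := by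
    have e : (x : E d) - z = (x + y) - (y + z) := by abel
    rw [e]
    exact norm_sub_le _ _
  unfold rho
  rcases min_cases ‖(x : E d) - y‖ ‖(x : E d) + y‖ with h1 | h1 <;>
    rcases min_cases ‖(y : E d) - z‖ ‖(y : E d) + z‖ with h2 | h2 <;>
    rw [h1.1, h2.1]
  · exact (min_le_left _ _).trans t1
  · exact (min_le_right _ _).trans t2
  · exact (min_le_right _ _).trans t3
  · exact (min_le_left _ _).trans t4

theorem bad_of_reachable {α : ℝ} {Bad : Set (Fin N)} {X : Fin N → Sph d} {i j : Fin N}
    (h : (badG α Bad X).Reachable i j) (hi : i ∈ Bad) : j ∈ Bad := by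
  obtain ⟨p⟩ := h
  induction p with
  | nil => exact hi
  | cons h p ih => exact ih h.2.2.1

end RecAux

open RecAux in
theorem s_rec : S_REC := by
  classical
  intro d N X Bad v α r hv hα hr h2 hconn k hk hcol
  obtain ⟨f⟩ := hcol
  -- representatives
  obtain ⟨b, hb⟩ : ∃ b : Fin N → Fin N, b =
      fun i => Quot.out ((badG α Bad X).connectedComponentMk i) := ⟨_, rfl⟩
  have hbr : ∀ i, (badG α Bad X).Reachable i (b i) := by
    intro i
    have h : (badG α Bad X).connectedComponentMk (b i) = (badG α Bad X).connectedComponentMk i := by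
      rw [hb]
      exact Quot.out_eq _
    exact (SimpleGraph.ConnectedComponent.exact h).symm
  have hbe : ∀ i j, (badG α Bad X).Reachable i j → b i = b j := by
    intro i j h
    rw [hb]
    show Quot.out ((badG α Bad X).connectedComponentMk i) =
      Quot.out ((badG α Bad X).connectedComponentMk j)
    rw [SimpleGraph.ConnectedComponent.sound h]
  obtain ⟨W, hW⟩ : ∃ W : Fin N → E d, W =
      fun c => if 0 ≤ ⟪v, (X c : E d)⟫ then (X c : E d) else -(X c : E d) := ⟨_, rfl⟩
  have hW1 : ∀ c, ‖W c‖ = 1 := by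
    intro c
    rw [hW]
    by_cases h : 0 ≤ ⟪v, (X c : E d)⟫
    · simp only [h, if_true]
      exact unit _
    · simp only [h, if_false]
      rw [norm_neg]
      exact unit _
  have hW2 : ∀ c, 0 ≤ ⟪v, W c⟫ := by
    intro c
    rw [hW]
    by_cases h : 0 ≤ ⟪v, (X c : E d)⟫
    · simp only [h, if_true]
    · simp only [h, if_false]
      rw [inner_neg_right]
      have := not_le.1 h
      linarith
  have hW3 : ∀ i ∈ Bad, ‖(X i : E d) - W (b i)‖ ≤ r ∨ ‖(X i : E d) + W (b i)‖ ≤ r := by
    intro i hi
    have h1 := hconn i (b i) hi (bad_of_reachable (hbr i) hi) (hbr i)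
    unfold rho at h1
    rw [hW]
    by_cases h : 0 ≤ ⟪v, (X (b i) : E d)⟫
    · simp only [h, if_true]
      exact min_le_iff.1 h1
    · simp only [h, if_false]
      rw [sub_neg_eq_add, ← sub_eq_add_neg]
      exact (min_le_iff.1 h1).symm
  obtain ⟨s, hs⟩ : ∃ s : Fin N → ℝ, s = fun i => ⟪v, (X i : E d)⟫ := ⟨_, rfl⟩
  obtain ⟨Ch, hCh⟩ : ∃ Ch : Fin N → Prop, Ch = fun i => ∃ j ∈ Bad, rho (X i) (X j) ≤ α ∧
      ‖(X i : E d) - W (b j)‖ ≤ r + α := ⟨_, rfl⟩
  -- facts on adjacent points
  have hadj : ∀ i j, (geo α X).Adj i j → ‖(X i : E d) + (X j : E d)‖ < α := fun i j h =>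
    norm_add_lt h.2
  have hinner : ∀ x : E d, |⟪v, x⟫| ≤ ‖x‖ := by
    intro x
    calc |⟪v, x⟫| ≤ ‖v‖ * ‖x‖ := abs_real_inner_le_norm _ _
      _ = ‖x‖ := by rw [hv, one_mul]
  have hsum : ∀ i j, (geo α X).Adj i j → |s i + s j| < α := by
    intro i j h
    rw [hs]
    show |⟪v, (X i : E d)⟫ + ⟪v, (X j : E d)⟫| < α
    rw [← inner_add_right]
    exact lt_of_le_of_lt (hinner _) (hadj i j h)
  have fa : ∀ i j, (geo α X).Adj i j → r + 2 * α < s i → ¬ r + 2 * α < s j := by
    intro i j h h1 h3
    have := (abs_lt.1 (hsum i j h)).2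
    linarith
  have fb : ∀ i j, (geo α X).Adj i j → r + 2 * α < s i → ¬ Ch j := by
    intro i j h h1 h3
    rw [hCh] at h3
    obtain ⟨j', hj', h4, h5⟩ := h3
    have h6 := (hinner ((X j : E d) - W (b j'))).trans h5
    rw [inner_sub_right] at h6
    have h7 := (abs_le.1 h6).1
    have h8 := hW2 (b j')
    have h9 := (abs_lt.1 (hsum i j h)).2
    have e : s j = ⟪v, (X j : E d)⟫ := by rw [hs]
    linarith
  have fc : ∀ i j, (geo α X).Adj i j → Ch i → ¬ Ch j := by
    intro i j h h1 h3
    rw [hCh] at h1 h3
    obtain ⟨i', hi', h4, h5⟩ := h1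
    obtain ⟨j', hj', h6, h7⟩ := h3
    have h8 : rho (X i') (X j') ≤ 3 * α := by
      have t1 := rho_tri (X i') (X i) (X j')
      have t2 := rho_tri (X i) (X j) (X j')
      have t3 := (rho_le_add (X i) (X j)).trans (hadj i j h).le
      rw [rho_comm (X i') (X i)] at t1
      linarith
    have h9 : b i' = b j' := by
      by_cases he : i' = j'
      · rw [he]
      · refine hbe i' j' (SimpleGraph.Adj.reachable ?_)
        exact ⟨he, hi', hj', (min_le_left _ _).trans h8⟩
    rw [h9] at h5
    have h10 : ‖(2 : ℝ) • W (b j')‖ ≤ ‖(X i : E d) + (X j : E d)‖ + ‖(X i : E d) - W (b j')‖ +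
        ‖(X j : E d) - W (b j')‖ := by
      have e : (2 : ℝ) • W (b j') = ((X i : E d) + (X j : E d)) - ((X i : E d) - W (b j')) -
          ((X j : E d) - W (b j')) := by
        rw [two_smul]
        abel
      rw [e]
      exact (norm_sub_le _ _).trans (add_le_add_left (norm_sub_le _ _) _)
    rw [norm_smul, hW1, Real.norm_eq_abs, abs_two] at h10
    have h11 := hadj i j h
    linarith
  have fd : ∀ i j, (geo α X).Adj i j → s i < -(r + 3 * α) → r + 2 * α < s j := by
    intro i j h h1
    have := (abs_lt.1 (hsum i j h)).1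
    linarith
  have fe : ∀ i j, (geo α X).Adj i j → i ∈ Bad → ¬ Ch i → Ch j := by
    intro i j h hi h1
    rw [hCh] at h1 ⊢
    have h3 : ‖(X i : E d) + W (b i)‖ ≤ r := by
      rcases hW3 i hi with h3 | h3
      · exfalso
        apply h1
        refine ⟨i, hi, ?_, by linarith⟩
        rw [rho_self]
        exact hα.le
      · exact h3
    refine ⟨i, hi, ?_, ?_⟩
    · rw [rho_comm]
      exact (rho_le_add _ _).trans (hadj i j h).le
    · have e : (X j : E d) - W (b i) = ((X i : E d) + (X j : E d)) - ((X i : E d) + W (b i)) := by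
        abel
      rw [e]
      have h4 := norm_sub_le ((X i : E d) + (X j : E d)) ((X i : E d) + W (b i))
      have h5 := hadj i j h
      linarith
  -- the colouring
  obtain ⟨C, hC⟩ : ∃ C : Fin N → Option (Fin k), C = fun i =>
      if r + 2 * α < s i then none else if s i < -(r + 3 * α) then some ⟨0, hk⟩ else
        if Ch i then none else if i ∈ Bad then some ⟨0, hk⟩ else some (f i) := ⟨_, rfl⟩
  have c1 : ∀ i, r + 2 * α < s i → C i = none := by
    intro i h
    rw [hC]
    simp only [h, if_true]
  have c2 : ∀ i, ¬ r + 2 * α < s i → s i < -(r + 3 * α) → C i = some ⟨0, hk⟩ := by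
    intro i h h'
    rw [hC]
    simp only [h, h', if_true, if_false]
  have c3 : ∀ i, ¬ r + 2 * α < s i → ¬ s i < -(r + 3 * α) → Ch i → C i = none := by
    intro i h h' h''
    rw [hC]
    simp only [h, h', h'', if_true, if_false]
  have c4 : ∀ i, ¬ r + 2 * α < s i → ¬ s i < -(r + 3 * α) → ¬ Ch i → i ∈ Bad →
      C i = some ⟨0, hk⟩ := by
    intro i h h' h'' h'''
    rw [hC]
    simp only [h, h', h'', h''', if_true, if_false]
  have c5 : ∀ i, ¬ r + 2 * α < s i → ¬ s i < -(r + 3 * α) → ¬ Ch i → i ∉ Bad →
      C i = some (f i) := by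
    intro i h h' h'' h'''
    rw [hC]
    simp only [h, h', h'', h''', if_false]
  have hvalid : ∀ {i j : Fin N}, (geo α X).Adj i j → C i ≠ C j := by
    intro i j hij
    have hji := hij.symm
    by_cases i1 : r + 2 * α < s i
    · rw [c1 i i1]
      have j1 := fa i j hij i1
      have jch := fb i j hij i1
      by_cases j2 : s j < -(r + 3 * α)
      · rw [c2 j j1 j2]
        exact (Option.some_ne_none _).symm
      · by_cases j3 : j ∈ Bad
        · rw [c4 j j1 j2 jch j3]
          exact (Option.some_ne_none _).symm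
        · rw [c5 j j1 j2 jch j3]
          exact (Option.some_ne_none _).symm
    · by_cases i2 : s i < -(r + 3 * α)
      · rw [c2 i i1 i2, c1 j (fd i j hij i2)]
        exact Option.some_ne_none _
      · by_cases i3 : Ch i
        · rw [c3 i i1 i2 i3]
          have j1 : ¬ r + 2 * α < s j := fun h => fb j i hji h i3
          have jch := fc i j hij i3
          by_cases j2 : s j < -(r + 3 * α)
          · rw [c2 j j1 j2]
            exact (Option.some_ne_none _).symm
          · by_cases j3 : j ∈ Bad
            · rw [c4 j j1 j2 jch j3]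
              exact (Option.some_ne_none _).symm
            · rw [c5 j j1 j2 jch j3]
              exact (Option.some_ne_none _).symm
        · have j2 : ¬ s j < -(r + 3 * α) := fun h => i1 (fd j i hji h)
          by_cases i4 : i ∈ Bad
          · rw [c4 i i1 i2 i3 i4]
            have jch := fe i j hij i4 i3
            by_cases j1 : r + 2 * α < s j
            · rw [c1 j j1]
              exact Option.some_ne_none _
            · rw [c3 j j1 j2 jch]
              exact Option.some_ne_none _
          · rw [c5 i i1 i2 i3 i4]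
            by_cases j1 : r + 2 * α < s j
            · rw [c1 j j1]
              exact Option.some_ne_none _
            · by_cases jch : Ch j
              · rw [c3 j j1 j2 jch]
                exact Option.some_ne_none _
              · have j4 : j ∉ Bad := fun h => i3 (fe j i hji h jch)
                rw [c5 j j1 j2 jch j4]
                have hg : (goodG α Bad (slab v (r + 3 * α)) X).Adj i j := by
                  refine ⟨⟨hij.1, hij.2⟩, ⟨i4, ?_⟩, ⟨j4, ?_⟩⟩
                  · show |⟪v, (X i : E d)⟫| ≤ r + 3 * α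
                    have e : s i = ⟪v, (X i : E d)⟫ := by rw [hs]
                    rw [← e, abs_le]
                    constructor <;> linarith [not_lt.1 i1, not_lt.1 i2]
                  · show |⟪v, (X j : E d)⟫| ≤ r + 3 * α
                    have e : s j = ⟪v, (X j : E d)⟫ := by rw [hs]
                    rw [← e, abs_le]
                    constructor <;> linarith [not_lt.1 j1, not_lt.1 j2]
                intro he
                exact f.valid hg (Option.some_injective _ he)
  have hcc : (geo α X).Colorable (Fintype.card (Option (Fin k))) :=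
    (SimpleGraph.Coloring.mk C hvalid).colorable
  rwa [Fintype.card_option, Fintype.card_fin] at hcc

end Pool.Agent.R225.BO
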