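import Pool.Agent.R225.BO.Defs2

/-! # BG-RHO: the distance of the projective space is a pseudo-metric -/

set_option autoImplicit false

namespace Pool.Agent.R225.BO

theorem s_rho : S_RHO := by
  intro d x y z
  unfold rho
  refine ⟨?_, ?_, ?_⟩
  · rw [sub_self, norm_zero]
    exact min_eq_left (norm_nonneg _)
  · have e1 : ‖(x : E d) - (y : E d)‖ = ‖(y : E d) - (x : E d)‖ := norm_sub_rev _ _
    have e2 : (x : E d) + (y : E d) = (y : E d) + (x : E d) := add_comm _ _
    simp only [e1, e2]
  · generalize (x : E d) = a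
    generalize (y : E d) = b
    generalize (z : E d) = c
    have h1 : ‖a - c‖ ≤ ‖a - b‖ + ‖b - c‖ := by
      have : a - c = (a - b) + (b - c) := by abel
      rw [this]; exact norm_add_le _ _
    have h2 : ‖a + c‖ ≤ ‖a - b‖ + ‖b + c‖ := by
      have : a + c = (a - b) + (b + c) := by abel
      rw [this]; exact norm_add_le _ _
    have h3 : ‖a + c‖ ≤ ‖a + b‖ + ‖b - c‖ := by
      have : a + c = (a + b) - (b - c) := by abel
      rw [this]; exact norm_sub_le _ _
    have h4 : ‖a - c‖ ≤ ‖a + b‖ + ‖b + c‖ := by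
      have : a - c = (a + b) - (b + c) := by abel
      rw [this]; exact norm_sub_le _ _
    rcases min_cases ‖a - b‖ ‖a + b‖ with ⟨e1, _⟩ | ⟨e1, _⟩ <;>
    rcases min_cases ‖b - c‖ ‖b + c‖ with ⟨e2, _⟩ | ⟨e2, _⟩ <;>
    rw [e1, e2]
    · exact (min_le_left _ _).trans h1
    · exact (min_le_right _ _).trans h2
    · exact (min_le_right _ _).trans h3
    · exact (min_le_left _ _).trans h4

end Pool.Agent.R225.BO
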