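import Pool.Agent.R225.BO.Defs

/-! # BO-SLAB: thin slabs have small measure -/

set_option autoImplicit false

open MeasureTheory Filter Topology
open scoped ENNReal RealInnerProductSpace Pointwise

namespace Pool.Agent.R225.BO

namespace SlabAux

theorem univ_ne_zero (d : ℕ) : (volume : Measure (E d)).toSphere Set.univ ≠ 0 := by
  rw [Measure.toSphere_apply_univ]
  refine mul_ne_zero ?_ (Metric.measure_ball_pos _ _ one_pos).ne'
  simp

theorem univ_ne_top (d : ℕ) : (volume : Measure (E d)).toSphere Set.univ ≠ ⊤ :=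
  measure_ne_top _ _

theorem isProb (d : ℕ) : IsProbabilityMeasure (unif d) := by
  refine ⟨?_⟩
  unfold unif
  rw [Measure.smul_apply, smul_eq_mul]
  exact ENNReal.inv_mul_cancel (univ_ne_zero d) (univ_ne_top d)

theorem great_zero (d : ℕ) (v : E d) (hv : ‖v‖ = 1) :
    (volume : Measure (E d)).toSphere {x : Sph d | ⟪v, (x : E d)⟫ = 0} = 0 := by
  have hmeas : MeasurableSet {x : Sph d | ⟪v, (x : E d)⟫ = 0} := by
    refine (isClosed_eq ?_ continuous_const).measurableSet
    exact continuous_const.inner continuous_subtype_val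
  rw [Measure.toSphere_apply' _ hmeas]
  have h0 : (volume : Measure (E d)) (Set.Ioo (0 : ℝ) 1 • (Subtype.val '' {x : Sph d | ⟪v, (x : E d)⟫ = 0})) = 0 := by
    set W : Submodule ℝ (E d) := (ℝ ∙ v)ᗮ with hW
    have hW1 : W ≠ ⊤ := by
      intro h
      have h1 : v ∈ W := by rw [h]; trivial
      rw [hW, Submodule.mem_orthogonal_singleton_iff_inner_right] at h1
      rw [real_inner_self_eq_norm_sq, hv] at h1
      norm_num at h1
    refine measure_mono_null ?_ (Measure.addHaar_submodule volume W hW1)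
    rintro y ⟨r, hr, z, ⟨x, hx, rfl⟩, rfl⟩
    simp only [Set.mem_ofPred_eq] at hx
    show r • (x : E d) ∈ (W : Set (E d))
    rw [SetLike.mem_coe, hW, Submodule.mem_orthogonal_singleton_iff_inner_right, inner_smul_right, hx,
      mul_zero]
  rw [h0, mul_zero]

end SlabAux

open SlabAux in
/-- BO-SLAB. -/
theorem s_slab : S_SLAB := by
  intro d v hv
  haveI := isProb d
  have hmeas : ∀ n : ℕ, MeasurableSet (slab v (1 / ((n : ℝ) + 1)) : Set (Sph d)) := by
    intro n
    refine (isClosed_le ?_ continuous_const).measurableSet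
    exact (continuous_const.inner continuous_subtype_val).abs
  have hanti : Antitone (fun n : ℕ => (slab v (1 / ((n : ℝ) + 1)) : Set (Sph d))) := by
    intro m n hmn x hx
    have hx' : |⟪v, (x : E d)⟫| ≤ 1 / ((n : ℝ) + 1) := hx
    show |⟪v, (x : E d)⟫| ≤ 1 / ((m : ℝ) + 1)
    refine hx'.trans ?_
    apply one_div_le_one_div_of_le
    · positivity
    · have : (m : ℝ) ≤ n := by exact_mod_cast hmn
      linarith
  have hinter : (⋂ n : ℕ, (slab v (1 / ((n : ℝ) + 1)) : Set (Sph d))) =
      {x : Sph d | ⟪v, (x : E d)⟫ = 0} := by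
    ext x
    simp only [Set.mem_iInter, Set.mem_ofPred_eq]
    constructor
    · intro h
      have h1 : Tendsto (fun n : ℕ => 1 / ((n : ℝ) + 1)) atTop (𝓝 0) :=
        tendsto_one_div_add_atTop_nhds_zero_nat
      have h2 : |⟪v, (x : E d)⟫| ≤ 0 := ge_of_tendsto' h1 (fun n => h n)
      exact abs_eq_zero.mp (le_antisymm h2 (abs_nonneg _))
    · intro h n
      show |⟪v, (x : E d)⟫| ≤ 1 / ((n : ℝ) + 1)
      rw [h, abs_zero]
      positivity
  have hlim := tendsto_measure_iInter_atTop (μ := unif d)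
    (fun n => (hmeas n).nullMeasurableSet) hanti ⟨0, measure_ne_top _ _⟩
  rw [hinter] at hlim
  have hz : unif d {x : Sph d | ⟪v, (x : E d)⟫ = 0} = 0 := by
    unfold unif
    rw [Measure.smul_apply, great_zero d v hv, smul_eq_mul, mul_zero]
  rw [hz] at hlim
  have hhalf : (0 : ℝ≥0∞) < ENNReal.ofReal (1 / 2) := by
    rw [ENNReal.ofReal_pos]; norm_num
  obtain ⟨n, hn⟩ := (hlim.eventually (ge_mem_nhds hhalf)).exists
  refine ⟨1 / ((n : ℝ) + 1), by positivity, ?_⟩
  rw [measureReal_def]
  exact ENNReal.toReal_le_of_le_ofReal (by norm_num) hn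

end Pool.Agent.R225.BO
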