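import Mathlib
import Pool.Agent.R225.BO.Defs

/-! # BO-UP (by helper734): the random graph is `(d+2)`-colourable -/

set_option autoImplicit false

open MeasureTheory Filter Topology
open scoped ENNReal RealInnerProductSpace

namespace Pool.Agent.R225.BO

theorem infinite_sph {d : ℕ} (hd : 1 ≤ d) : Infinite (Sph d) := by
  have hr : 1 < Module.rank ℝ (E d) := by
    rw [← Module.finrank_eq_rank, finrank_euclideanSpace_fin]
    exact_mod_cast (by omega : 1 < d + 1)
  have hpre := isPreconnected_sphere hr (0 : E d) 1
  obtain ⟨x, hx⟩ := (NormedSpace.sphere_nonempty (E := E d) (x := 0) (r := 1)).2 zero_le_one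
  have hx1 : ‖x‖ = 1 := by simpa using hx
  have hne : x ≠ -x := by
    intro h
    have h2 : x = 0 := by
      have h3 : x + x = 0 := by nth_rw 2 [h]; simp
      have h4 : (2 : ℝ) • x = 0 := by rw [two_smul]; exact h3
      exact (smul_eq_zero.1 h4).resolve_left (by norm_num)
    rw [h2] at hx1
    simp at hx1
  have hnt : (Metric.sphere (0 : E d) 1).Nontrivial := ⟨x, hx, -x, by simpa using hx, hne⟩
  exact Set.infinite_coe_iff.2 (hpre.infinite_of_nontrivial hnt)

theorem s_up : S_UP := by
  intro d n α X hd hcol
  obtain ⟨c⟩ := hcol
  by_cases hα : α ≤ Real.pi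
  · refine ⟨SimpleGraph.Coloring.mk (fun i => c (X i)) ?_⟩
    intro i j hij
    apply c.valid
    refine ⟨?_, hij.2⟩
    intro h
    have h1 := hij.2
    have hx0 : ((X j : Sph d) : E d) ≠ 0 := by
      intro h0
      have := (X j).2
      rw [mem_sphere_zero_iff_norm, h0] at this
      simp at this
    rw [h, InnerProductGeometry.angle_self hx0] at h1
    linarith
  · exfalso
    push Not at hα
    haveI := infinite_sph hd
    have hinj : Function.Injective c := by
      intro x y hxy
      by_contra hne
      have hadj : (borsuk d α).Adj x y :=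
        ⟨hne, lt_of_lt_of_le (by linarith) (InnerProductGeometry.angle_nonneg _ _)⟩
      exact c.valid hadj hxy
    exact not_injective_infinite_finite c hinj

end Pool.Agent.R225.BO
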