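import Pool.Agent.R225.BO.Defs

set_option autoImplicit false

open MeasureTheory

namespace Pool.Agent.R225.BO

section VProd

variable {Ω Ω' : Type} [MeasurableSpace Ω] [MeasurableSpace Ω']

lemma v_integrable (μ : Measure Ω) [IsFiniteMeasure μ] {f : Ω → ℝ} (hf : Measurable f) {B : ℝ}
    (hB : ∀ x, |f x| ≤ B) : Integrable f μ :=
  Integrable.of_bound hf.aestronglyMeasurable B (Filter.Eventually.of_forall fun x => by
    simpa [Real.norm_eq_abs] using hB x)

lemma v_sq_bound {a B : ℝ} (h : |a| ≤ B) : |a ^ 2| ≤ B ^ 2 := by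
  rw [abs_pow]
  exact pow_le_pow_left₀ (abs_nonneg _) h 2

lemma v_integral_bound (μ : Measure Ω) [IsProbabilityMeasure μ] {f : Ω → ℝ} {B : ℝ}
    (hB : ∀ x, |f x| ≤ B) : |∫ x, f x ∂μ| ≤ B := by
  have h := norm_integral_le_of_norm_le_const (μ := μ) (f := f) (C := B)
    (Filter.Eventually.of_forall fun x => by simpa [Real.norm_eq_abs] using hB x)
  simpa [Real.norm_eq_abs] using h

lemma v_meas (ν : Measure Ω') [IsProbabilityMeasure ν] {H : Ω × Ω' → ℝ} (hH : Measurable H) :
    Measurable (fun x => ∫ y, H (x, y) ∂ν) :=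
  (hH.stronglyMeasurable.integral_prod_right').measurable

lemma v_int1 (μ : Measure Ω) [IsProbabilityMeasure μ] (ν : Measure Ω') [IsProbabilityMeasure ν]
    {H : Ω × Ω' → ℝ} (hH : Measurable H) {B : ℝ} (hB : ∀ p, |H p| ≤ B) :
    Integrable (fun x => ∫ y, H (x, y) ^ 2 ∂ν) μ :=
  v_integrable μ (v_meas ν (H := fun p => H p ^ 2) (hH.pow_const 2)) (B := B ^ 2) fun x =>
    v_integral_bound ν fun y => v_sq_bound (hB (x, y))

lemma v_int2 (μ : Measure Ω) [IsProbabilityMeasure μ] (ν : Measure Ω') [IsProbabilityMeasure ν]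
    {H : Ω × Ω' → ℝ} (hH : Measurable H) {B : ℝ} (hB : ∀ p, |H p| ≤ B) :
    Integrable (fun x => (∫ y, H (x, y) ∂ν) ^ 2) μ :=
  v_integrable μ ((v_meas ν hH).pow_const 2) (B := B ^ 2) fun x =>
    v_sq_bound (v_integral_bound ν fun y => hB (x, y))

lemma v_int (μ : Measure Ω) [IsProbabilityMeasure μ] (ν : Measure Ω') [IsProbabilityMeasure ν]
    {H : Ω × Ω' → ℝ} (hH : Measurable H) {B : ℝ} (hB : ∀ p, |H p| ≤ B) :
    Integrable (fun x => vr ν (fun y => H (x, y))) μ :=
  (v_int1 μ ν hH hB).sub (v_int2 μ ν hH hB)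

/-- The law of total variance. -/
lemma vr_prod (μ : Measure Ω) [IsProbabilityMeasure μ] (ν : Measure Ω') [IsProbabilityMeasure ν]
    {H : Ω × Ω' → ℝ} (hH : Measurable H) {B : ℝ} (hB : ∀ p, |H p| ≤ B) :
    vr (μ.prod ν) H =
      ∫ x, vr ν (fun y => H (x, y)) ∂μ + vr μ (fun x => ∫ y, H (x, y) ∂ν) := by
  have e1 : ∫ p, H p ∂(μ.prod ν) = ∫ x, ∫ y, H (x, y) ∂ν ∂μ :=
    integral_prod _ (v_integrable _ hH hB)
  have e2 : ∫ p, H p ^ 2 ∂(μ.prod ν) = ∫ x, ∫ y, H (x, y) ^ 2 ∂ν ∂μ :=
    integral_prod (fun p => H p ^ 2) (v_integrable _ (hH.pow_const 2) fun p => v_sq_bound (hB p))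
  unfold vr
  rw [e1, e2, integral_sub (v_int1 μ ν hH hB) (v_int2 μ ν hH hB)]
  ring

end VProd

/-- BO-V: the variance bound for `n` variables from the one for one variable. -/
theorem s_v : S_V1 → S_V := by
  intro h1 Ω _ μ _ N d R hR hR2 hd n
  induction n with
  | zero =>
    intro f hf hb hl
    have hz : ∀ g : (Fin 0 → Ω) → ℝ, vr (Measure.pi fun _ : Fin 0 => μ) g = 0 := by
      intro g
      have h2 : g = fun _ => g (fun i => i.elim0) := by
        funext X
        exact congrArg g (Subsingleton.elim _ _)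
      rw [h2]
      unfold vr
      simp
    simp [hz]
  | succ n ih =>
    intro f hf hb hl
    set e := MeasurableEquiv.piFinSuccAbove (fun _ : Fin (n + 1) => Ω) 0 with he
    have mp : MeasurePreserving e (Measure.pi fun _ : Fin (n + 1) => μ)
        (μ.prod (Measure.pi fun _ : Fin n => μ)) :=
      measurePreserving_piFinSuccAbove (fun _ : Fin (n + 1) => μ) 0
    have hvr : ∀ h : (Fin (n + 1) → Ω) → ℝ, vr (Measure.pi fun _ : Fin (n + 1) => μ) h =
        vr (μ.prod (Measure.pi fun _ : Fin n => μ)) (fun p => h (e.symm p)) := by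
      intro h
      have a1 := mp.integral_comp' (fun p => h (e.symm p))
      have a2 := mp.integral_comp' (fun p => h (e.symm p) ^ 2)
      simp only [MeasurableEquiv.symm_apply_apply] at a1 a2
      unfold vr
      rw [a1, a2]
    obtain ⟨F, hF⟩ : ∃ F : Fin N → Ω × (Fin n → Ω) → ℝ, F = fun i p => f i (e.symm p) := ⟨_, rfl⟩
    have hFm : ∀ i, Measurable (F i) := fun i => by
      rw [hF]
      exact (hf i).comp e.symm.measurable
    have hFb : ∀ i p, |F i p| ≤ 1 := fun i p => by
      rw [hF]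
      exact hb i _
    have hes : ∀ (x : Ω) (Y : Fin n → Ω), e.symm (x, Y) = Fin.cons x Y := by
      intro x Y
      rw [he]
      simp [MeasurableEquiv.piFinSuccAbove]
      rfl
    have hSm : Measurable (fun p => ∑ i, F i p) := Finset.measurable_sum _ fun i _ => hFm i
    have hSb : ∀ p, |∑ i, F i p| ≤ (N : ℝ) := by
      intro p
      refine (Finset.abs_sum_le_sum_abs _ _).trans ?_
      refine (Finset.sum_le_sum fun i _ => hFb i p).trans ?_
      simp
    have k1 := vr_prod μ (Measure.pi fun _ : Fin n => μ) hSm hSb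
    have k2 : ∀ i, vr (Measure.pi fun _ : Fin (n + 1) => μ) (f i) =
        ∫ x, vr (Measure.pi fun _ : Fin n => μ) (fun Y => F i (x, Y)) ∂μ +
          vr μ (fun x => ∫ Y, F i (x, Y) ∂(Measure.pi fun _ : Fin n => μ)) := fun i => by
      have e1 : vr (Measure.pi fun _ : Fin (n + 1) => μ) (f i) =
          vr (μ.prod (Measure.pi fun _ : Fin n => μ)) (F i) := by rw [hvr (f i), hF]
      rw [e1]
      exact vr_prod μ _ (hFm i) (hFb i)
    -- the inner variances
    have k3 : ∀ x, vr (Measure.pi fun _ : Fin n => μ) (fun Y => ∑ i, F i (x, Y)) ≤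
        2 * d * ∑ i, vr (Measure.pi fun _ : Fin n => μ) (fun Y => F i (x, Y)) := by
      intro x
      refine ih (fun i Y => F i (x, Y)) (fun i => (hFm i).comp (measurable_const.prodMk measurable_id))
        (fun i Y => hFb i _) ?_
      intro i Y Y' hYY
      simp only [hF, hes]
      refine hl i _ _ fun j => ?_
      refine Fin.cases ?_ (fun j => ?_) j
      · left
        simp
      · simpa using hYY j
    have k4 : ∫ x, vr (Measure.pi fun _ : Fin n => μ) (fun Y => ∑ i, F i (x, Y)) ∂μ ≤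
        2 * d * ∑ i, ∫ x, vr (Measure.pi fun _ : Fin n => μ) (fun Y => F i (x, Y)) ∂μ := by
      have hu : ∀ i, Integrable (fun x => vr (Measure.pi fun _ : Fin n => μ)
          (fun Y => F i (x, Y))) μ := fun i => v_int μ _ (hFm i) (hFb i)
      generalize hgu : (fun (i : Fin N) (x : Ω) => vr (Measure.pi fun _ : Fin n => μ)
          (fun Y => F i (x, Y))) = u at hu k3
      have hu' : ∀ i, Integrable (u i) μ := fun i => by rw [← hgu]; exact hu i
      have hk3 : ∀ x, vr (Measure.pi fun _ : Fin n => μ) (fun Y => ∑ i, F i (x, Y)) ≤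
          2 * d * ∑ i, u i x := fun x => by rw [← hgu]; exact k3 x
      have hsum : 2 * d * ∑ i, ∫ x, vr (Measure.pi fun _ : Fin n => μ)
          (fun Y => F i (x, Y)) ∂μ = ∫ x, 2 * d * ∑ i, u i x ∂μ := by
        rw [integral_const_mul, integral_finsetSum _ fun i _ => hu' i, ← hgu]
      have hA : Integrable (fun x => vr (Measure.pi fun _ : Fin n => μ)
          (fun Y => ∑ i, F i (x, Y))) μ := by
        have h5 := v_int μ (Measure.pi fun _ : Fin n => μ) hSm hSb
        exact h5
      have hB1 : Integrable (fun x => ∑ i, u i x) μ := integrable_finsetSum _ fun i _ => hu' i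
      have hB2 : Integrable (fun x => 2 * (d : ℝ) * ∑ i, u i x) μ := hB1.const_mul (2 * (d : ℝ))
      rw [hsum]
      exact integral_mono hA hB2 hk3
    -- the outer variance
    have k5 : vr μ (fun x => ∑ i, ∫ Y, F i (x, Y) ∂(Measure.pi fun _ : Fin n => μ)) ≤
        2 * d * ∑ i, vr μ (fun x => ∫ Y, F i (x, Y) ∂(Measure.pi fun _ : Fin n => μ)) := by
      have hgm : ∀ i, Measurable (fun x => ∫ Y, F i (x, Y) ∂(Measure.pi fun _ : Fin n => μ)) :=
        fun i => v_meas (Measure.pi fun _ : Fin n => μ) (hFm i)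
      have hgb : ∀ i x, |∫ Y, F i (x, Y) ∂(Measure.pi fun _ : Fin n => μ)| ≤ 1 :=
        fun i x => v_integral_bound (Measure.pi fun _ : Fin n => μ) fun Y => hFb i (x, Y)
      have hgl : ∀ i x y, x ∉ R i → y ∉ R i →
          ∫ Y, F i (x, Y) ∂(Measure.pi fun _ : Fin n => μ) =
            ∫ Y, F i (y, Y) ∂(Measure.pi fun _ : Fin n => μ) := by
        intro i x y hx hy
        have h4 : ∀ Y, F i (x, Y) = F i (y, Y) := by
          intro Y
          simp only [hF, hes]
          refine hl i _ _ fun j => ?_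
          refine Fin.cases ?_ (fun j => ?_) j
          · right
            simpa using ⟨hx, hy⟩
          · left
            simp
        simp only [h4]
      exact h1 Ω μ N d R hR hR2 hd
        (fun i x => ∫ Y, F i (x, Y) ∂(Measure.pi fun _ : Fin n => μ)) hgm hgb hgl
    have k6 : (fun x => ∫ Y, ∑ i, F i (x, Y) ∂(Measure.pi fun _ : Fin n => μ)) =
        fun x => ∑ i, ∫ Y, F i (x, Y) ∂(Measure.pi fun _ : Fin n => μ) := by
      funext x
      exact integral_finsetSum _ fun i _ => v_integrable _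
        ((hFm i).comp (measurable_const.prodMk measurable_id)) (fun Y => hFb i _)
    have k7 : vr (Measure.pi fun _ : Fin (n + 1) => μ) (fun X => ∑ i, f i X) =
        vr (μ.prod (Measure.pi fun _ : Fin n => μ)) (fun p => ∑ i, F i p) := by
      rw [hvr, hF]
    rw [k7]
    calc vr (μ.prod (Measure.pi fun _ : Fin n => μ)) (fun p => ∑ i, F i p)
        = _ := k1
      _ ≤ 2 * d * ∑ i, ∫ x, vr (Measure.pi fun _ : Fin n => μ) (fun Y => F i (x, Y)) ∂μ +
          2 * d * ∑ i, vr μ (fun x => ∫ Y, F i (x, Y) ∂(Measure.pi fun _ : Fin n => μ)) := by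
          refine add_le_add k4 ?_
          rw [k6]
          exact k5
      _ = 2 * d * ∑ i, vr (Measure.pi fun _ : Fin (n + 1) => μ) (f i) := by
          rw [← mul_add, ← Finset.sum_add_distrib]
          congr 1
          exact Finset.sum_congr rfl fun i _ => (k2 i).symm

end Pool.Agent.R225.BO
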