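import Pool.Agent.R225.BO.Defs

/-! # BO-V1: the variance bound for one variable -/

set_option autoImplicit false

open MeasureTheory

namespace Pool.Agent.R225.BO

theorem vr_add_const {Ω : Type} [MeasurableSpace Ω] (μ : Measure Ω) [IsProbabilityMeasure μ]
    (f : Ω → ℝ) (c : ℝ) (h1 : Integrable f μ) (h2 : Integrable (fun x => f x ^ 2) μ) :
    vr μ (fun x => f x + c) = vr μ f := by
  unfold vr
  have e1 : (fun x => (f x + c) ^ 2) = fun x => (f x ^ 2 + 2 * c * f x) + c ^ 2 := by
    funext x; ring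
  have hb : Integrable (fun x => 2 * c * f x) μ := h1.const_mul _
  have ha : Integrable (fun x => f x ^ 2 + 2 * c * f x) μ := h2.add hb
  have e2 : ∫ x, (f x ^ 2 + 2 * c * f x) + c ^ 2 ∂μ = ∫ x, f x ^ 2 ∂μ + 2 * c * ∫ x, f x ∂μ + c ^ 2 := by
    rw [integral_add ha (integrable_const _), integral_add h2 hb, integral_const_mul]
    simp
  have e3 : ∫ x, (f x + c) ∂μ = ∫ x, f x ∂μ + c := by
    rw [integral_add h1 (integrable_const _)]
    simp
  rw [e1, e2]
  simp only [e3]
  ring

theorem s_v1 : S_V1 := by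
  classical
  intro Ω _ μ _ N d R hR hRμ hd g hg hg1 hloc
  have hex : ∀ i, ∃ x, x ∉ R i := by
    intro i
    by_contra h
    push Not at h
    have h1 : R i = Set.univ := Set.eq_univ_of_forall h
    have h2 := hRμ i
    rw [h1] at h2
    simp at h2
    norm_num at h2
  choose x₀ hx₀ using hex
  let u : Fin N → Ω → ℝ := fun i x => g i x - g i (x₀ i)
  have hu0 : ∀ i x, x ∉ R i → u i x = 0 := fun i x hx => by
    simp [u, hloc i x (x₀ i) hx (hx₀ i)]
  have hum : ∀ i, Measurable (u i) := fun i => (hg i).sub_const _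
  have hub : ∀ i x, |u i x| ≤ 2 := by
    intro i x
    have h1 := abs_le.1 (hg1 i x)
    have h2 := abs_le.1 (hg1 i (x₀ i))
    simp only [u]
    rw [abs_le]
    constructor <;> linarith [h1.1, h1.2, h2.1, h2.2]
  have hint : ∀ i, Integrable (u i) μ := fun i =>
    Integrable.of_bound (hum i).aestronglyMeasurable 2 (Filter.Eventually.of_forall fun x => by
      rw [Real.norm_eq_abs]; exact hub i x)
  have hint2 : ∀ i, Integrable (fun x => (u i x) ^ 2) μ := fun i =>
    Integrable.of_bound ((hum i).pow_const 2).aestronglyMeasurable 4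
      (Filter.Eventually.of_forall fun x => by
        rw [Real.norm_eq_abs, abs_of_nonneg (sq_nonneg _)]
        have h1 := abs_le.1 (hub i x)
        nlinarith [h1.1, h1.2])
  have hgu : ∀ i, vr μ (g i) = vr μ (u i) := by
    intro i
    have h1 := vr_add_const μ (u i) (g i (x₀ i)) (hint i) (hint2 i)
    rw [← h1]
    congr 1
    funext x
    simp [u]
  have hkey : ∀ i, ∫ x, (u i x) ^ 2 ∂μ ≤ 2 * vr μ (g i) := by
    intro i
    rw [hgu i]
    unfold vr
    set m := ∫ x, u i x ∂μ with hm
    have h0 : 0 ≤ ∫ x, (u i x - 2 * m * (R i).indicator (fun _ => (1 : ℝ)) x) ^ 2 ∂μ :=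
      integral_nonneg fun x => sq_nonneg _
    have hi : Integrable ((R i).indicator (fun _ => (1 : ℝ))) μ :=
      (integrable_const _).indicator (hR i)
    have e1 : (fun x => (u i x - 2 * m * (R i).indicator (fun _ => (1 : ℝ)) x) ^ 2) =
        fun x => ((u i x) ^ 2 - 4 * m * u i x) +
          4 * m ^ 2 * (R i).indicator (fun _ => (1 : ℝ)) x := by
      funext x
      by_cases hx : x ∈ R i
      · simp only [Set.indicator_of_mem hx]; ring
      · simp only [Set.indicator_of_notMem hx, hu0 i x hx]; ring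
    have ha : Integrable (fun x => 4 * m * u i x) μ := (hint i).const_mul _
    have hb : Integrable (fun x => (u i x) ^ 2 - 4 * m * u i x) μ := (hint2 i).sub ha
    have hc : Integrable (fun x => 4 * m ^ 2 * (R i).indicator (fun _ => (1 : ℝ)) x) μ :=
      hi.const_mul _
    have hd' : ∫ x, (R i).indicator (fun _ => (1 : ℝ)) x ∂μ = μ.real (R i) := by
      rw [integral_indicator (hR i)]
      simp
    rw [e1, integral_add hb hc, integral_sub (hint2 i) ha, integral_const_mul, integral_const_mul,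
      hd', ← hm] at h0
    have h3 := hRμ i
    nlinarith [sq_nonneg m, mul_le_mul_of_nonneg_left h3 (sq_nonneg m)]
  have hsum : vr μ (fun x => ∑ i, g i x) = vr μ (fun x => ∑ i, u i x) := by
    have h1 : Integrable (fun x => ∑ i, u i x) μ := integrable_finsetSum _ fun i _ => hint i
    have h2 : Integrable (fun x => (∑ i, u i x) ^ 2) μ :=
      Integrable.of_bound ((Finset.measurable_sum _ fun i _ => hum i).pow_const 2).aestronglyMeasurable
        ((2 * N) ^ 2) (Filter.Eventually.of_forall fun x => by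
          rw [Real.norm_eq_abs, abs_of_nonneg (sq_nonneg _), ← sq_abs]
          have h3 : |∑ i, u i x| ≤ 2 * N := by
            refine (Finset.abs_sum_le_sum_abs _ _).trans ?_
            refine (Finset.sum_le_sum fun i _ => hub i x).trans ?_
            simp [mul_comm]
          exact pow_le_pow_left₀ (abs_nonneg _) h3 2)
    have h3 := vr_add_const μ (fun x => ∑ i, u i x) (∑ i, g i (x₀ i)) h1 h2
    rw [← h3]
    congr 1
    funext x
    rw [← Finset.sum_add_distrib]
    simp [u]
  have hpt : ∀ x, (∑ i, u i x) ^ 2 ≤ d * ∑ i, (u i x) ^ 2 := by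
    intro x
    have h1 : ∑ i, u i x = ∑ i ∈ Finset.univ.filter (fun i => x ∈ R i), u i x := by
      symm
      refine Finset.sum_subset (Finset.subset_univ _) fun i _ hi => ?_
      exact hu0 i x (by simpa using hi)
    have h2 : ((Finset.univ.filter (fun i => x ∈ R i)).card : ℝ) ≤ d := by
      have h3 := hd x
      rw [Nat.card_eq_fintype_card, Fintype.card_subtype] at h3
      exact_mod_cast h3
    rw [h1]
    refine (sq_sum_le_card_mul_sum_sq).trans ?_
    refine mul_le_mul h2 ?_ (Finset.sum_nonneg fun i _ => sq_nonneg _) (Nat.cast_nonneg _)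
    exact Finset.sum_le_sum_of_subset_of_nonneg (Finset.subset_univ _) fun i _ _ => sq_nonneg _
  rw [hsum]
  have hle : vr μ (fun x => ∑ i, u i x) ≤ ∫ x, (∑ i, u i x) ^ 2 ∂μ := by
    unfold vr
    linarith [sq_nonneg (∫ x, ∑ i, u i x ∂μ)]
  have hle2 : ∫ x, (∑ i, u i x) ^ 2 ∂μ ≤ ∫ x, d * ∑ i, (u i x) ^ 2 ∂μ := by
    refine integral_mono_of_nonneg (Filter.Eventually.of_forall fun x => sq_nonneg _)
      ((integrable_finsetSum _ fun i _ => hint2 i).const_mul _)
      (Filter.Eventually.of_forall hpt)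
  have h5 : ∫ x, (d : ℝ) * ∑ i, (u i x) ^ 2 ∂μ = d * ∑ i, ∫ x, (u i x) ^ 2 ∂μ := by
    rw [integral_const_mul, integral_finsetSum _ fun i _ => hint2 i]
  have h6 : ∑ i, ∫ x, (u i x) ^ 2 ∂μ ≤ ∑ i, 2 * vr μ (g i) :=
    Finset.sum_le_sum fun i _ => hkey i
  rw [← Finset.mul_sum] at h6
  calc vr μ (fun x => ∑ i, u i x) ≤ d * ∑ i, ∫ x, (u i x) ^ 2 ∂μ := by linarith
    _ ≤ d * (2 * ∑ i, vr μ (g i)) := mul_le_mul_of_nonneg_left h6 (Nat.cast_nonneg _)
    _ = 2 * d * ∑ i, vr μ (g i) := by ring

end Pool.Agent.R225.BO
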